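import Pool.Agent.Lib.MP_288534_co.P.A1
import Pool.Agent.Lib.MP_288534_co.P.A2
import Pool.Agent.Lib.MP_288534_co.P.A3
import Pool.Agent.Lib.MP_288534_co.P.A4
import Pool.Agent.Lib.MP_288534_co.P.A5
import Pool.Agent.Lib.MP_288534_co.P.A6
import Pool.Agent.Lib.MP_288534_co.P.B1
import Pool.Agent.Lib.MP_288534_co.P.B10
import Pool.Agent.Lib.MP_288534_co.P.B2
import Pool.Agent.Lib.MP_288534_co.P.B3
import Pool.Agent.Lib.MP_288534_co.P.B3a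
import Pool.Agent.Lib.MP_288534_co.P.B3b
import Pool.Agent.Lib.MP_288534_co.P.B4
import Pool.Agent.Lib.MP_288534_co.P.B5
import Pool.Agent.Lib.MP_288534_co.P.B6
import Pool.Agent.Lib.MP_288534_co.P.B7
import Pool.Agent.Lib.MP_288534_co.P.B8
import Pool.Agent.Lib.MP_288534_co.P.B9
import Pool.Agent.Lib.MP_288534_co.P.C1a
import Pool.Agent.Lib.MP_288534_co.P.C1b
import Pool.Agent.Lib.MP_288534_co.P.C2
import Pool.Agent.Lib.MP_288534_co.P.C3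
import Pool.Agent.Lib.MP_288534_co.P.C4
import Pool.Agent.Lib.MP_288534_co.P.C4a
import Pool.Agent.Lib.MP_288534_co.P.C4b
import Pool.Agent.Lib.MP_288534_co.P.C5
import Pool.Agent.Lib.MP_288534_co.P.D0
import Pool.Agent.Lib.MP_288534_co.P.D1
import Pool.Agent.Lib.MP_288534_co.P.D2
import Pool.Agent.Lib.MP_288534_co.P.D3
import Pool.Agent.Lib.MP_288534_co.P.D5
import Pool.Agent.Lib.MP_288534_co.P.F1
import Pool.Agent.Lib.MP_288534_co.P.F10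
import Pool.Agent.Lib.MP_288534_co.P.F2
import Pool.Agent.Lib.MP_288534_co.P.F4
import Pool.Agent.Lib.MP_288534_co.P.F5
import Pool.Agent.Lib.MP_288534_co.P.F5a
import Pool.Agent.Lib.MP_288534_co.P.F6
import Pool.Agent.Lib.MP_288534_co.P.F7
import Pool.Agent.Lib.MP_288534_co.P.F8
import Pool.Agent.Lib.MP_288534_co.P.F9
import Pool.Agent.Lib.MP_288534_co.P.F9a
import Pool.Agent.Lib.MP_288534_co.P.F9b
import Pool.Agent.Lib.MP_288534_co.P.F9c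
import Pool.Agent.Lib.MP_288534_co.P.G1
import Pool.Agent.Lib.MP_288534_co.P.G2
import Pool.Agent.Lib.MP_288534_co.P.G3
import Pool.Agent.Lib.MP_288534_co.P.G4
import Pool.Agent.Lib.MP_288534_co.P.G5
import Pool.Agent.Lib.MP_288534_co.P.H1
import Pool.Agent.Lib.MP_288534_co.P.H1a
import Pool.Agent.Lib.MP_288534_co.P.H1b
import Pool.Agent.Lib.MP_288534_co.P.H1c
import Pool.Agent.Lib.MP_288534_co.P.H1d
import Pool.Agent.Lib.MP_288534_co.P.H2a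
import Pool.Agent.Lib.MP_288534_co.P.H2b
import Pool.Agent.Lib.MP_288534_co.P.H2c
import Pool.Agent.Lib.MP_288534_co.P.K1
import Pool.Agent.Lib.MP_288534_co.P.K2
import Pool.Agent.Lib.MP_288534_co.P.K3
import Pool.Agent.Lib.MP_288534_co.P.K4
import Pool.Agent.Lib.MP_288534_co.P.K5
import Pool.Agent.Lib.MP_288534_co.P.K6
import Pool.Agent.Lib.MP_288534_co.P.K7
import Pool.Agent.Lib.MP_288534_co.P.K8a
import Pool.Agent.Lib.MP_288534_co.P.K8b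
import Pool.Agent.Lib.MP_288534_co.P.K8c
import Pool.Agent.Lib.MP_288534_co.P.K9
import Pool.Agent.Lib.MP_288534_co.P.P1
import Pool.Agent.Lib.MP_288534_co.P.P1b
import Pool.Agent.Lib.MP_288534_co.P.P2a
import Pool.Agent.Lib.MP_288534_co.P.P2b
import Pool.Agent.Lib.MP_288534_co.P.P2c
import Pool.Agent.Lib.MP_288534_co.P.P3a
import Pool.Agent.Lib.MP_288534_co.P.P3b
import Pool.Agent.Lib.MP_288534_co.P.P3c
import Pool.Agent.Lib.MP_288534_co.P.P3d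
import Pool.Agent.Lib.MP_288534_co.P.P4
import Pool.Agent.Lib.MP_288534_co.P.R1
import Pool.Agent.Lib.MP_288534_co.P.R10a
import Pool.Agent.Lib.MP_288534_co.P.R10b
import Pool.Agent.Lib.MP_288534_co.P.R11a
import Pool.Agent.Lib.MP_288534_co.P.R11b
import Pool.Agent.Lib.MP_288534_co.P.R12
import Pool.Agent.Lib.MP_288534_co.P.R2
import Pool.Agent.Lib.MP_288534_co.P.R3
import Pool.Agent.Lib.MP_288534_co.P.R4
import Pool.Agent.Lib.MP_288534_co.P.R5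
import Pool.Agent.Lib.MP_288534_co.P.R6
import Pool.Agent.Lib.MP_288534_co.P.R7
import Pool.Agent.Lib.MP_288534_co.P.R8
import Pool.Agent.Lib.MP_288534_co.P.Z1
import Pool.Agent.Lib.MP_288534_co.P.Z2
import Pool.Agent.Lib.MP_288534_co.P.Z3

/-!
# MP_288534_co: all pieces together
-/

set_option autoImplicit false

namespace Pool.Agent.SM

theorem w_R1 : S_R1 :=
  pf_R1

theorem w_R2 : S_R2 :=
  pf_R2

theorem w_R3 : S_R3 :=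
  pf_R3

theorem w_R4 : S_R4 :=
  pf_R4

theorem w_R5 : S_R5 :=
  pf_R5 w_R3 w_R4

theorem w_R6 : S_R6 :=
  pf_R6 w_R1 w_R2 w_R4

theorem w_R7 : S_R7 :=
  pf_R7 w_R4

theorem w_R8 : S_R8 :=
  pf_R8 w_R1 w_R2 w_R3 w_R4

theorem w_R10a : S_R10a :=
  pf_R10a

theorem w_R10b : S_R10b :=
  pf_R10b

theorem w_R11a : S_R11a :=
  pf_R11a w_R10a

theorem w_R11b : S_R11b :=
  pf_R11b w_R10b

theorem w_R12 : S_R12 :=
  pf_R12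

theorem w_A1 : S_A1 :=
  pf_A1

theorem w_A2 : S_A2 :=
  pf_A2 w_A1

theorem w_A3 : S_A3 :=
  pf_A3 w_R4

theorem w_A5 : S_A5 :=
  pf_A5 w_R4 w_R7

theorem w_A4 : S_A4 :=
  pf_A4 w_R2 w_R3 w_R4 w_A5

theorem w_A6 : S_A6 :=
  pf_A6 w_R6 w_R10b w_A2 w_A3 w_A4

theorem w_K1 : S_K1 :=
  pf_K1

theorem w_K2 : S_K2 :=
  pf_K2 w_K1

theorem w_K3 : S_K3 :=
  pf_K3 w_K1 w_K2

theorem w_K4 : S_K4 :=
  pf_K4 w_K1 w_K2

theorem w_K5 : S_K5 :=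
  pf_K5

theorem w_K6 : S_K6 :=
  pf_K6

theorem w_K7 : S_K7 :=
  pf_K7

theorem w_K8a : S_K8a :=
  pf_K8a

theorem w_K8b : S_K8b :=
  pf_K8b

theorem w_K8c : S_K8c :=
  pf_K8c

theorem w_D0 : S_D0 :=
  pf_D0

theorem w_D1 : S_D1 :=
  pf_D1

theorem w_D2 : S_D2 :=
  pf_D2 w_K3

theorem w_D3 : S_D3 :=
  pf_D3 w_D1 w_D2 w_K8a

theorem w_D5 : S_D5 :=
  pf_D5 w_D1 w_D2 w_K4 w_K8b

theorem w_K9 : S_K9 :=
  pf_K9 w_D1 w_D2 w_K3 w_K4 w_K5 w_K8a w_K8c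

theorem w_C1a : S_C1a :=
  pf_C1a w_D3 w_D2 w_K7 w_K8a w_K9 w_K6

theorem w_C1b : S_C1b :=
  pf_C1b w_D1 w_D2 w_D3 w_D5 w_K5

theorem w_C2 : S_C2 :=
  pf_C2 w_D2 w_D3 w_D5 w_K2 w_K3 w_K8a

theorem w_C3 : S_C3 :=
  pf_C3 w_D2 w_D3 w_D5 w_K3 w_K6 w_K8a

theorem w_C4a : S_C4a :=
  pf_C4a w_C2 w_C3 w_K6 w_K7

theorem w_C4b : S_C4b :=
  pf_C4b w_K1 w_K2 w_K7

theorem w_C4 : S_C4 :=
  pf_C4 w_C1a w_C1b w_C2 w_C4a w_C4b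

theorem w_C5 : S_C5 :=
  pf_C5

theorem w_F1 : S_F1 :=
  pf_F1 w_A6 w_C2 w_C4 w_C5 w_D0 w_K7 w_K2

theorem w_F2 : S_F2 :=
  pf_F2

theorem w_F4 : S_F4 :=
  pf_F4 w_F1 w_F2 w_R11a w_R12

theorem w_F5a : S_F5a :=
  pf_F5a w_F4

theorem w_F5 : S_F5 :=
  pf_F5 w_F5a

theorem w_F6 : S_F6 :=
  pf_F6 w_F4 w_F5

theorem w_F7 : S_F7 :=
  pf_F7 w_F6

theorem w_F8 : S_F8 :=
  pf_F8 w_F5

theorem w_F9a : S_F9a :=
  pf_F9a w_F1 w_F2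

theorem w_F9b : S_F9b :=
  pf_F9b w_D1 w_D2 w_D3 w_K8c

theorem w_F9c : S_F9c :=
  pf_F9c w_F9a w_R6 w_R11a w_R11b w_R12

theorem w_F9 : S_F9 :=
  pf_F9 w_F9b w_F9c

theorem w_P1b : S_P1b :=
  pf_P1b

theorem w_P1 : S_P1 :=
  pf_P1 w_P1b

theorem w_P2a : S_P2a :=
  pf_P2a

theorem w_P2b : S_P2b :=
  pf_P2b

theorem w_P2c : S_P2c :=
  pf_P2c

theorem w_P3c : S_P3c :=
  pf_P3c

theorem w_P3d : S_P3d :=
  pf_P3d w_D1 w_D2 w_K4 w_K6 w_K8b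

theorem w_P3a : S_P3a :=
  pf_P3a w_P1 w_P2b w_P3c w_D1 w_D2 w_D3

theorem w_P3b : S_P3b :=
  pf_P3b w_P1 w_P2a w_P2c w_P3c w_P3d w_D1 w_D2 w_K8a

theorem w_P4 : S_P4 :=
  pf_P4 w_P3a w_P3b w_R1 w_R6 w_R11a w_R11b w_R12

theorem w_F10 : S_F10 :=
  pf_F10 w_F7 w_F8 w_F9 w_P3a w_R1 w_R2 w_R4 w_R11a w_R11b

theorem w_H1a : S_H1a :=
  pf_H1a

theorem w_H1b : S_H1b :=
  pf_H1b

theorem w_H1c : S_H1c :=
  pf_H1c

theorem w_H1d : S_H1d :=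
  pf_H1d

theorem w_H1 : S_H1 :=
  pf_H1 w_H1a w_H1b w_H1c w_H1d

theorem w_H2a : S_H2a :=
  pf_H2a

theorem w_H2b : S_H2b :=
  pf_H2b

theorem w_H2c : S_H2c :=
  pf_H2c w_H2a w_H2b

theorem w_G3 : S_G3 :=
  pf_G3 w_F9a w_P4 w_R11a w_R12

theorem w_G1 : S_G1 :=
  pf_G1 w_D0 w_A5 w_R4 w_R7

theorem w_G2 : S_G2 :=
  pf_G2 w_G1

theorem w_G4 : S_G4 :=
  pf_G4 w_F2 w_F10 w_G2 w_H1

theorem w_G5 : S_G5 :=
  pf_G5 w_P4 w_G2 w_G3 w_H2a w_H2c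

theorem w_B1 : S_B1 :=
  pf_B1

theorem w_B2 : S_B2 :=
  pf_B2

theorem w_B3a : S_B3a :=
  pf_B3a

theorem w_B3b : S_B3b :=
  pf_B3b

theorem w_B3 : S_B3 :=
  pf_B3 w_B1 w_B2 w_B3a w_B3b

theorem w_B4 : S_B4 :=
  pf_B4

theorem w_B5 : S_B5 :=
  B5_direct

theorem w_B6 : S_B6 :=
  pf_B6 w_B5 w_R8

theorem w_B7 : S_B7 :=
  pf_B7 w_B6 w_K2 w_K3 w_K5 w_K6 w_K7 w_D2

theorem w_B8 : S_B8 :=
  pf_B8 w_B5 w_K2 w_K3 w_K5 w_K6 w_K7 w_D2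

theorem w_B9 : S_B9 :=
  pf_B9 w_B7 w_D0 w_D1 w_D2 w_D5 w_K3 w_K8a w_P3d

theorem w_B10 : S_B10 :=
  pf_B10 w_B8 w_D0 w_D1 w_D2 w_K8a w_K8b w_K9

theorem w_Z1 : S_Z1 :=
  pf_Z1 w_B3 w_B4 w_B9 w_B10

theorem w_Z2 : S_Z2 :=
  pf_Z2 w_R5 w_R7 w_D0

theorem w_Z3 : S_Z3 :=
  pf_Z3 w_Z1 w_Z2 w_G4 w_G5

end Pool.Agent.SM
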