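import Pool.Agent.Lib.MP_288534_co.Problem

/-!
# MP_288534_co : definitions

A sigma-morphic tile homeomorphic to the closed ball in every dimension `d = n + 3`.
-/

set_option autoImplicit false

open scoped Topology

namespace Pool.Agent.SM

/-! ## Cells and cubes -/

/-- axes: `0, 1, 2` are `x, y, z`, the others are called `u` -/
abbrev Dx (n : ℕ) := Fin (n + 3)
/-- cells: points of the integer lattice -/
abbrev Zc (n : ℕ) := Dx n → ℤ
/-- the space -/
abbrev Es (n : ℕ) := EuclideanSpace ℝ (Dx n)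

/-- the axis `x` -/
abbrev ax (n : ℕ) : Dx n := ⟨0, by omega⟩
/-- the axis `y` -/
abbrev ay (n : ℕ) : Dx n := ⟨1, by omega⟩
/-- the axis `z` -/
abbrev az (n : ℕ) : Dx n := ⟨2, by omega⟩

/-- closed unit cube centred at the integer point `p` -/
def cube {n : ℕ} (p : Zc n) : Set (Es n) := {x | ∀ i, |x i - p i| ≤ 1 / 2}
/-- open unit cube -/
def ocube {n : ℕ} (p : Zc n) : Set (Es n) := {x | ∀ i, |x i - p i| < 1 / 2}
/-- the union of the closed cubes of a set of cells -/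
def real {n : ℕ} (A : Set (Zc n)) : Set (Es n) := {x | ∃ p ∈ A, x ∈ cube p}

/-- `KK = 8 d` -/
def KK (n : ℕ) : ℤ := 8 * (n + 3)
/-- the side of a macro cell -/
def MM (n : ℕ) : ℤ := 2 * KK n + 1

/-- `p` lies in the macro cell `c` -/
def InMega {n : ℕ} (c p : Zc n) : Prop := ∀ i, |p i - MM n * c i| ≤ KK n

/-- the polycube with 60 cells in dimension three -/
def InP (x y z : ℤ) : Prop :=
  (0 ≤ x ∧ x ≤ 5 ∧ y = 0 ∧ 0 ≤ z ∧ z ≤ 1) ∨
  ((x = 0 ∨ x = 2 ∨ x = 4) ∧ 1 ≤ y ∧ y ≤ 4 ∧ 0 ≤ z ∧ z ≤ 1) ∨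
  ((x = 1 ∨ x = 3 ∨ x = 5) ∧ y = 0 ∧ 2 ≤ z ∧ z ≤ 8) ∨
  (x = 1 ∧ y = 0 ∧ z = 9) ∨ (x = 1 ∧ y = 1 ∧ z = 3) ∨ (x = 5 ∧ y = 3 ∧ z = 1)

/-- the macro polycube -/
def PP (n : ℕ) : Set (Zc n) :=
  {c | InP (c (ax n)) (c (ay n)) (c (az n)) ∧ ∀ i : Dx n, 3 ≤ i.val → c i = 0}

/-! ## Keys -/

/-- sign of a boolean -/
def sg (s : Bool) : ℤ := if s then 1 else -1

/-- keys: main axis, sign, column (only relevant for the axis `z`) -/
structure Key (n : ℕ) where
  a : Dx n
  s : Bool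
  B : Fin 3
  hB : a.val ≠ 2 → B = 0

/-- index of a key -/
def Key.idx {n : ℕ} (κ : Key n) : ℕ := 2 * κ.a.val + (if κ.s then 0 else 1)
/-- run length of a key -/
def Key.run {n : ℕ} (κ : Key n) : ℕ := κ.idx + 2
/-- lateral offset of a key -/
def Key.off {n : ℕ} (κ : Key n) : ℤ := if 3 ≤ κ.a.val then 4 * (κ.idx : ℤ) else 0
/-- lateral axes -/
def lats {n : ℕ} (a : Dx n) : List (Dx n) :=
  (List.finRange (n + 3)).filter (fun c => c ≠ a ∧ ¬ (a.val = 2 ∧ c.val = 0))
/-- list of the axes of the steps of the path, from the leaf to the entrance -/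
def Key.dirs {n : ℕ} (κ : Key n) : List (Dx n) :=
  List.replicate κ.run κ.a ++ lats κ.a ++ [κ.a]
/-- length of the path (number of steps) -/
def Key.len {n : ℕ} (κ : Key n) : ℕ := κ.dirs.length
/-- micro coordinates of the leaf -/
def Key.leaf {n : ℕ} (κ : Key n) : Zc n := fun c =>
  if c = κ.a then - sg κ.s * (KK n - 1 - κ.run)
  else if κ.a.val = 2 ∧ c.val = 0 then 0
  else sg κ.s + (if c.val = 0 then κ.off else 0)
/-- micro coordinates of the cells of the path, `j = 0` is the leaf, `j = len` the entrance -/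
def Key.q {n : ℕ} (κ : Key n) (j : ℕ) : Zc n := fun c =>
  κ.leaf c - sg κ.s * ((κ.dirs.take j).count c : ℤ)

/-- base macro cell of the tunnel -/
def Key.base {n : ℕ} (κ : Key n) : Zc n := fun c =>
  if c.val = 0 then
    (if κ.a.val = 0 then (if κ.s then 0 else 5)
     else if κ.a.val = 2 then 2 * (κ.B.val : ℤ) else 2)
  else if c.val = 1 then
    (if κ.a.val = 0 then 0
     else if κ.a.val = 1 then (if κ.s then 0 else 4)
     else if κ.a.val = 2 then (if κ.s then 3 else 2) else 1)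
  else if c.val = 2 then
    (if 3 ≤ κ.a.val then 0 else if κ.s then 0 else 1)
  else 0
/-- macro shift from the tunnel to the tail -/
def Key.v {n : ℕ} (κ : Key n) : Zc n := fun c =>
  if κ.a.val = 0 then (if c.val = 0 then 6 * sg κ.s else 0)
  else if κ.a.val = 1 then (if c.val = 1 then 5 * sg κ.s else 0)
  else if κ.a.val = 2 then
    (if c.val = 1 then - 2 * sg κ.s else if c.val = 2 then 2 * sg κ.s else 0)
  else (if c = κ.a then sg κ.s else 0)

/-- cells of the tunnel -/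
def Key.tun {n : ℕ} (κ : Key n) (j : ℕ) : Zc n := fun c => MM n * κ.base c + κ.q j c
/-- cells of the tail -/
def Key.tail {n : ℕ} (κ : Key n) (j : ℕ) : Zc n := fun c => κ.tun j c + MM n * κ.v c

/-- all tunnel cells -/
def Tuns (n : ℕ) : Set (Zc n) := {p | ∃ κ : Key n, ∃ j ≤ κ.len, p = κ.tun j}
/-- all tail cells -/
def Tails (n : ℕ) : Set (Zc n) := {p | ∃ κ : Key n, ∃ j ≤ κ.len, p = κ.tail j}
/-- the solid macro polycube (all cells) -/
def Sol (n : ℕ) : Set (Zc n) := {p | ∃ c ∈ PP n, InMega c p}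
/-- the cells of the tile -/
def SS (n : ℕ) : Set (Zc n) := (Sol n \ Tuns n) ∪ Tails n
/-- the tile -/
def TT (n : ℕ) : Set (Es n) := real (SS n)

/-! ## Cell isometries and placements -/

/-- cell isometries `p ↦ (ε i * p (π i) + b i)` -/
structure CIso (n : ℕ) where
  π : Equiv.Perm (Dx n)
  ε : Dx n → ℤ
  hε : ∀ i, ε i = 1 ∨ ε i = -1
  b : Zc n

/-- action on cells -/
def CIso.act {n : ℕ} (g : CIso n) (p : Zc n) : Zc n := fun i => g.ε i * p (g.π i) + g.b i

/-- `h` is the isometry of the space induced by the cell isometry `g` -/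
def Induces {n : ℕ} (g : CIso n) (h : Es n ≃ᵢ Es n) : Prop :=
  ∀ x i, h x i = g.ε i * x (g.π i) + g.b i

/-- placements: reflection of `x` (if `s = false`) and a translation by a macro vector -/
structure Pl (n : ℕ) where
  s : Bool
  V : Zc n

/-- action of a placement on cells -/
def Pl.act {n : ℕ} (g : Pl n) (p : Zc n) : Zc n := fun i =>
  (if i.val = 0 then sg g.s * p i else p i) + MM n * g.V i

/-- action of a placement on macro cells -/
def Pl.mact {n : ℕ} (g : Pl n) (c : Zc n) : Zc n := fun i =>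
  (if i.val = 0 then sg g.s * c i else c i) + g.V i

/-- `h` is the isometry of the space given by the placement `g` -/
def IsPl {n : ℕ} (g : Pl n) (h : Es n ≃ᵢ Es n) : Prop :=
  ∀ x i, h x i = (if i.val = 0 then (sg g.s : ℝ) * x i else x i) + MM n * g.V i

/-- column data of the layers -/
abbrev Gam := ℤ → Bool × Fin 3

/-- the placements of the chain given by `γ` -/
def Ch {n : ℕ} (γ : Gam) : Set (Pl n) :=
  {g | ∃ k : ℤ, g.V (az n) = 2 * k ∧ g.s = (γ k).1 ∧
    (6 : ℤ) ∣ g.V (ax n) - 2 * ((γ k).2.val : ℤ) ∧ (5 : ℤ) ∣ g.V (ay n) + g.V (az n)}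

/-- column of the side cube and of the top -/
def zc (c : Bool × Fin 3) : ℤ := (sg c.1 + 2 * (c.2.val : ℤ)) % 6
/-- column of the own cube -/
def oc (c : Bool × Fin 3) : ℤ := (5 * sg c.1 + 2 * (c.2.val : ℤ)) % 6

/-- valid sequences -/
def Valid (γ : Gam) : Prop := ∀ k : ℤ,
  oc (γ k) ≠ zc (γ (k - 1)) ∧ oc (γ k) ≠ zc (γ (k - 4)) ∧ zc (γ (k - 1)) ≠ zc (γ (k - 4))

/-- composition of placements (first `P`, then `g`) -/
def Pl.comp {n : ℕ} (g P : Pl n) : Pl n where
  s := g.s == P.s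
  V := fun i => (if i.val = 0 then sg g.s * P.V i else P.V i) + g.V i

/-- the placement `g` as a cell isometry -/
def Pl.toC {n : ℕ} (g : Pl n) : CIso n where
  π := Equiv.refl _
  ε := fun i => if i.val = 0 then sg g.s else 1
  hε := by
    intro i
    by_cases h : i.val = 0
    · simp only [h, if_true, sg]
      cases g.s <;> simp
    · simp [h]
  b := fun i => MM n * g.V i

/-- tilings as sets of tiles -/
def STil {n : ℕ} (T : Set (Es n)) (W : Set (Set (Es n))) : Prop :=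
  (∀ G ∈ W, ∃ h : Es n ≃ᵢ Es n, G = h '' T) ∧ ⋃₀ W = Set.univ ∧
  (∀ G ∈ W, ∀ G' ∈ W, G ≠ G' → Disjoint (interior G) (interior G'))

/-- the set of tiles of the chain -/
def CC (n : ℕ) (γ : Gam) : Set (Set (Es n)) :=
  {G | ∃ g ∈ Ch (n := n) γ, ∃ h : Es n ≃ᵢ Es n, IsPl g h ∧ G = h '' TT n}

/-- neighbouring (or equal) cells -/
def Nb {n : ℕ} (p p' : Zc n) : Prop := ∀ i, |p i - p' i| ≤ 1
/-- facet neighbours -/
def Fadj {n : ℕ} (p p' : Zc n) : Prop := ∑ i, |p i - p' i| = 1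

/-- the placement `g` belongs to the tiling `W` -/
def InW {n : ℕ} (W : Set (Set (Es n))) (g : Pl n) : Prop :=
  ∀ h : Es n ≃ᵢ Es n, IsPl g h → h '' TT n ∈ W

/-- `P` is a possible relative placement of the tile filling the tunnel `κ` -/
def PlOK {n : ℕ} (κ : Key n) (P : Pl n) : Prop :=
  (κ.a.val ≠ 2 → P.s = true ∧ ∀ i, P.V i = - κ.v i) ∧
  (κ.a.val = 2 → (∃ B' : Fin 3, P.V (ax n) = 2 * ((κ.B.val : ℤ) - sg P.s * (B'.val : ℤ))) ∧
    ∀ i : Dx n, i.val ≠ 0 → P.V i = - κ.v i)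

/-- the standard tile of the layer `k` with column data `c` -/
def anc (n : ℕ) (k : ℤ) (c : Bool × Fin 3) : Pl n where
  s := c.1
  V := fun i => if i.val = 0 then 2 * (c.2.val : ℤ) else if i.val = 1 then -2 * k
    else if i.val = 2 then 2 * k else 0

/-! ## The sequences -/

/-- `... abac abac (cbaacbbac)^m ccaaac ccaaac ...` with `a = 1, b = 3, c = 5` -/
def zseq (m : ℕ) (k : ℤ) : ℤ :=
  if k < 0 then
    (if k % 4 = 0 then 1 else if k % 4 = 1 then 3 else if k % 4 = 2 then 1 else 5)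
  else if k < 9 * m then
    (if k % 9 = 0 then 5 else if k % 9 = 1 then 3 else if k % 9 = 2 then 1
     else if k % 9 = 3 then 1 else if k % 9 = 4 then 5 else if k % 9 = 5 then 3
     else if k % 9 = 6 then 3 else if k % 9 = 7 then 1 else 5)
  else
    (if (k - 9 * m) % 6 = 0 then 5 else if (k - 9 * m) % 6 = 1 then 5
     else if (k - 9 * m) % 6 = 2 then 1 else if (k - 9 * m) % 6 = 3 then 1
     else if (k - 9 * m) % 6 = 4 then 1 else 5)

/-- the column data with `zc = z`, `oc = o` (for different `z, o` in `{1,3,5}`) -/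
def colOf (z o : ℤ) : Bool × Fin 3 :=
  if (z - o) % 6 = 2 then (true, Fin.ofNat 3 ((z - 1) / 2 % 3).toNat)
  else (false, Fin.ofNat 3 ((z + 1) / 2 % 3).toNat)

/-- the infinite family of valid sequences -/
def fam (m : ℕ) : Gam := fun k => colOf (zseq m k) (9 - zseq m (k - 1) - zseq m (k - 4))

/-! ## Boxes -/

/-- a box of `(x, y, z)`-cells times the unit cube in the other directions -/
def bx (n : ℕ) (x0 x1 y0 y1 z0 z1 : ℤ) : Set (Es n) :=
  {x | (x0 : ℝ) - 1 / 2 ≤ x (ax n) ∧ x (ax n) ≤ x1 + 1 / 2 ∧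
       (y0 : ℝ) - 1 / 2 ≤ x (ay n) ∧ x (ay n) ≤ y1 + 1 / 2 ∧
       (z0 : ℝ) - 1 / 2 ≤ x (az n) ∧ x (az n) ≤ z1 + 1 / 2 ∧
       ∀ i : Dx n, 3 ≤ i.val → |x i| ≤ 1 / 2}

/-! ## The piecewise linear functions of the step lemma -/

/-- position of the boundary of the cell on the ray of slope `a` -/
noncomputable def t1 (a : ℝ) : ℝ := 1 / max (1 / 2) (2 * a)
/-- end of the support on the ray of slope `a` -/
noncomputable def t2 (a : ℝ) : ℝ := 1 / max (2 / 5) a
/-- piecewise linear, fixes `1/2` and `t2 a`, maps `t1 a` to `1` -/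
noncomputable def Ff (a t : ℝ) : ℝ :=
  if t ≤ t1 a then 1 / 2 + (t - 1 / 2) * ((1 / 2) / (t1 a - 1 / 2))
  else 1 + (t - t1 a) * ((t2 a - 1) / (t2 a - t1 a))
/-- the inverse of `Ff a` -/
noncomputable def Gg (a t : ℝ) : ℝ :=
  if t ≤ 1 then 1 / 2 + (t - 1 / 2) * ((t1 a - 1 / 2) / (1 / 2))
  else t1 a + (t - 1) * ((t2 a - t1 a) / (t2 a - 1))
/-- clamp of `t` to `[1/2, t2 a]` -/
noncomputable def clp (a t : ℝ) : ℝ := max (1 / 2) (min t (t2 a))

/-- height coordinate -/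
noncomputable def hgt {n : ℕ} (q : Zc n) (b : Dx n) (s : Bool) (x : Es n) : ℝ :=
  (sg s : ℝ) * (x b - q b) + 3 / 2
/-- lateral sup norm -/
noncomputable def rho {n : ℕ} (q : Zc n) (b : Dx n) (x : Es n) : ℝ :=
  ‖(fun c : {c : Dx n // c ≠ b} => x c.1 - (q c.1 : ℝ))‖
/-- slope, cut off at `1/2` -/
noncomputable def slp {n : ℕ} (q : Zc n) (b : Dx n) (s : Bool) (x : Es n) : ℝ :=
  min (rho q b x / max (hgt q b s x) (1 / 2)) (1 / 2)
/-- the apex -/
noncomputable def apx {n : ℕ} (q : Zc n) (b : Dx n) (s : Bool) : Es n :=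
  WithLp.toLp 2 (fun c => (q c : ℝ) - (if c = b then 3 / 2 * (sg s : ℝ) else 0))
/-- the step map -/
noncomputable def Phi {n : ℕ} (q : Zc n) (b : Dx n) (s : Bool) (x : Es n) : Es n :=
  x + ((Ff (slp q b s x) (clp (slp q b s x) (hgt q b s x)) - clp (slp q b s x) (hgt q b s x)) /
    max (hgt q b s x) (1 / 2)) • (x - apx q b s)
/-- the inverse of the step map -/
noncomputable def Psi {n : ℕ} (q : Zc n) (b : Dx n) (s : Bool) (x : Es n) : Es n :=
  x + ((Gg (slp q b s x) (clp (slp q b s x) (hgt q b s x)) - clp (slp q b s x) (hgt q b s x)) /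
    max (hgt q b s x) (1 / 2)) • (x - apx q b s)

end Pool.Agent.SM
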