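import Mathlib

/-!
# MP_288534_co : the definitions of the problem

Tiles, tilings, congruence of tilings, `m`-morphic tiles.
-/

set_option autoImplicit false

namespace Pool.Agent.SM

/-- A tile: a compact set which is the closure of its interior. -/
def IsTile {d : ℕ} (T : Set (EuclideanSpace ℝ (Fin d))) : Prop :=
  IsCompact T ∧ closure (interior T) = T

/-- `F 0, F 1, ...` is a tiling of Euclidean space by (congruent copies of) `T`. -/
def IsTiling {d : ℕ} (T : Set (EuclideanSpace ℝ (Fin d)))
    (F : ℕ → Set (EuclideanSpace ℝ (Fin d))) : Prop :=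
  (∀ i, ∃ φ : EuclideanSpace ℝ (Fin d) ≃ᵢ EuclideanSpace ℝ (Fin d), F i = φ '' T) ∧
  (⋃ i, F i) = Set.univ ∧
  (∀ i j, i ≠ j → Disjoint (interior (F i)) (interior (F j)))

/-- Two tilings are congruent if an isometry maps the set of tiles of the first one onto the
set of tiles of the second one. -/
def Congr {d : ℕ} (F G : ℕ → Set (EuclideanSpace ℝ (Fin d))) : Prop :=
  ∃ φ : EuclideanSpace ℝ (Fin d) ≃ᵢ EuclideanSpace ℝ (Fin d),
    (fun X => φ '' X) '' Set.range F = Set.range G

/-- Congruence as a setoid on the tilings by `T`. -/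
def tilingSetoid {d : ℕ} (T : Set (EuclideanSpace ℝ (Fin d))) :
    Setoid {F : ℕ → Set (EuclideanSpace ℝ (Fin d)) // IsTiling T F} where
  r F G := Congr F.1 G.1
  iseqv :=
    { refl := fun F => ⟨IsometryEquiv.refl _, by
        have : (fun X : Set (EuclideanSpace ℝ (Fin d)) => (IsometryEquiv.refl _) '' X) = id := by
          funext X
          exact Set.image_id X
        rw [this, Set.image_id]⟩
      symm := by
        rintro F G ⟨φ, h⟩
        refine ⟨φ.symm, ?_⟩
        rw [← h, Set.image_image]
        have : (fun X : Set (EuclideanSpace ℝ (Fin d)) => φ.symm '' (φ '' X)) = id := by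
          funext X; ext x; simp [Set.image_image]
        rw [this, Set.image_id]
      trans := by
        rintro F G H ⟨φ, h⟩ ⟨ψ, h'⟩
        refine ⟨φ.trans ψ, ?_⟩
        rw [← h', ← h, Set.image_image]
        apply Set.image_congr
        intro X _
        rw [Set.image_image]; rfl }

/-- A tile is `m`-morphic, `m` a cardinal, if the congruence classes of tilings of Euclidean space
by `T` form a set of cardinality exactly `m`. -/
def IsMorphic {d : ℕ} (T : Set (EuclideanSpace ℝ (Fin d))) (m : Cardinal) : Prop :=
  Cardinal.mk (Quotient (tilingSetoid T)) = m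

end Pool.Agent.SM
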