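import Pool.Agent.Lib.MP_288534_co.Defs

/-!
# Statements of the pieces [SM ..] of the solution of MP_288534_co

THEOREM. For every `d ≥ 3` there is a tile in `ℝ^d`, homeomorphic to the closed ball, with exactly countably
infinitely many congruence classes of tilings.  Paper proof: /team-store/MP_288534_paper.md.

Every `def S_xx : Prop` below is one independent piece; its docstring contains the complete proof.
The letters in the docstrings (R3, K5, ...) refer to the other statements, which may be taken as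
hypotheses.  `M` is `MM n`, `s = ±1` stands for `sg s`, `e_c` for the unit vector of the axis `c`.
-/

set_option autoImplicit false

namespace Pool.Agent.SM

/-- [SM R1] (about 20 lines) Every point lies in a cube.
Proof. `p i = round (x i)`, `abs_sub_round`. -/
def S_R1 : Prop :=
  ∀ (n : ℕ) (x : Es n), ∃ p : Zc n, x ∈ cube p

/-- [SM R2] (about 20 lines) An open cube meets no other closed cube.
Proof. `|p i - p' i| < 1` for all `i` and both are integers. -/
def S_R2 : Prop :=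
  ∀ (n : ℕ) (p p' : Zc n) (x : Es n), x ∈ ocube p → x ∈ cube p' → p = p'

/-- [SM R3] (about 60 lines) Unions of closed cubes are closed.
Proof. The family of the cubes is locally finite (`LocallyFinite.isClosed_iUnion`): the neighbourhood
`{y | ∀ i, |y i - x i| < 1/2}` of `x` meets only cubes `p` with `|p i - x i| ≤ 1` for all `i`, i.e.
`p ∈ Set.Icc` of two integer points, a finite set (`Set.finite_Icc` for `Dx n → ℤ`). -/
def S_R3 : Prop :=
  ∀ (n : ℕ) (A : Set (Zc n)), IsClosed (real A)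

/-- [SM R4] (about 60 lines) Elementary facts on cubes: the open cube is open and nonempty, contained in the closed one, the
closed cube is compact and convex and is the closure of the open one.
Proof. Open: finite intersection of open conditions (coordinates are continuous). Centre:
`WithLp.toLp 2 (fun i => (p i : ℝ))`.  Compact: closed and bounded (`Metric.isCompact_of_isClosed_isBounded`, or image of a
compact product under the continuous `toLp`).  Closure: for `x ∈ cube p` and the centre `m`, the points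
`m + (1 - 1/(k+2)) • (x - m)` are in the open cube and converge to `x` (closure ⊆ closed cube because it is closed). -/
def S_R4 : Prop :=
  ∀ (n : ℕ) (p : Zc n), IsOpen (ocube p) ∧ (ocube p).Nonempty ∧ ocube p ⊆ cube p ∧
    IsCompact (cube p) ∧ Convex ℝ (cube p) ∧ closure (ocube p) = cube p

/-- [SM R5] (about 30 lines) Uses R3, R4. Unions of cubes are regular closed.
Proof. `⊆`: R3 (`interior_subset`, closed).  `⊇`: `cube p = closure (ocube p)` and `ocube p ⊆ interior (real A)` for `p ∈ A`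
(`interior_maximal`). -/
def S_R5 : Prop :=
  ∀ (n : ℕ) (A : Set (Zc n)), closure (interior (real A)) = real A

/-- [SM R6] (about 50 lines) Uses R1, R2, R4. Disjointness of interiors is disjointness of cells.
Proof. `→`: for `p ∈ A ∩ B` the nonempty open `ocube p` is contained in both interiors.
`←`: let `U` be the intersection of the interiors, open; `x ∈ U`, `x ∈ cube p = closure (ocube p)` (R1, R4), so `U`
meets `ocube p` in some `y`; `y ∈ real A` gives `y ∈ cube p'`, `p' ∈ A`, `p = p'` (R2), so `p ∈ A`; the same for `B`. -/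
def S_R6 : Prop :=
  ∀ (n : ℕ) (A B : Set (Zc n)),
    Disjoint (interior (real A)) (interior (real B)) ↔ Disjoint A B

/-- [SM R7] (about 15 lines) Uses R4. Finite unions of cubes are compact. -/
def S_R7 : Prop :=
  ∀ (n : ℕ) (A : Set (Zc n)), A.Finite → IsCompact (real A)

/-- [SM R8] (about 40 lines) Uses R1, R2, R3, R4. The closed cubes of the complement are the closure of the complement.
Proof. `(real A)ᶜ ⊆ real Aᶜ` by R1, and `real Aᶜ` is closed (R3).  Conversely for `p ∉ A` we have `ocube p ⊆ (real A)ᶜ`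
by R2 and `cube p = closure (ocube p)`. -/
def S_R8 : Prop :=
  ∀ (n : ℕ) (A : Set (Zc n)), real Aᶜ = closure (real A)ᶜ

/-- [SM R10a] (about 70 lines) Every cell isometry induces an isometry.
Proof. The map `x ↦ toLp (fun i => ε i * x (π i) + b i)` has the inverse
`y ↦ toLp (fun j => ε (π⁻¹ j) * (y (π⁻¹ j) - b (π⁻¹ j)))` (`ε i ^ 2 = 1`), and preserves distances
(`EuclideanSpace.dist_eq`, the sum is reindexed by `π` with `Equiv.sum_comp`, `(ε i * t)^2 = t^2`).  Build the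
`IsometryEquiv` with `IsometryEquiv.mk`/`Isometry.of_dist_eq`. -/
def S_R10a : Prop :=
  ∀ (n : ℕ) (g : CIso n), ∃ h : Es n ≃ᵢ Es n, Induces g h

/-- [SM R10b] (about 60 lines) Induced isometries map unions of cubes to unions of cubes.
Proof. `h x ∈ cube (g.act p) ↔ x ∈ cube p`: `|ε i * x (π i) + b i - (ε i * p (π i) + b i)| = |x (π i) - p (π i)|`, and `π` is
bijective.  For `⊇` use that `h` is surjective. -/
def S_R10b : Prop :=
  ∀ (n : ℕ) (g : CIso n) (h : Es n ≃ᵢ Es n) (A : Set (Zc n)), Induces g h →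
    h '' real A = real (g.act '' A)

/-- [SM R11a] (about 20 lines) Uses R10a. Every placement is given by an isometry.
Proof. Apply R10a to `g.toC`; `(MM n * V i : ℤ)` casts to the real product. -/
def S_R11a : Prop :=
  ∀ (n : ℕ) (g : Pl n), ∃ h : Es n ≃ᵢ Es n, IsPl g h

/-- [SM R11b] (about 20 lines) Uses R10b. Image of a union of cubes under a placement.
Proof. `IsPl g h` is `Induces g.toC h`, and `g.toC.act = g.act`; then R10b. -/
def S_R11b : Prop :=
  ∀ (n : ℕ) (g : Pl n) (h : Es n ≃ᵢ Es n) (A : Set (Zc n)), IsPl g h →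
    h '' real A = real (g.act '' A)

/-- [SM R12] (about 40 lines) A placement is determined by its isometry and conversely; composition.
Proof. (1) evaluate `h` at `0` (`V` is determined, `MM n > 0`) and at a point with `x`-coordinate `1`.
(2) pointwise (`EuclideanSpace` ext).  (3) compute: coordinate `0`: `sg g.s * (sg P.s * x + M P.V) + M g.V`,
`sg (g.s == P.s) = sg g.s * sg P.s` (cases). -/
def S_R12 : Prop :=
  ∀ (n : ℕ),
    (∀ (g g' : Pl n) (h : Es n ≃ᵢ Es n), IsPl g h → IsPl g' h → g = g') ∧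
    (∀ (g : Pl n) (h h' : Es n ≃ᵢ Es n), IsPl g h → IsPl g h' → ∀ x, h x = h' x) ∧
    (∀ (g P : Pl n) (h k : Es n ≃ᵢ Es n), IsPl g h → IsPl P k → IsPl (g.comp P) (k.trans h))

/-- [SM A1] (about 60 lines) Pairwise orthogonal unit vectors in an orthant are (up to the sign of the orthant) basis vectors.
Proof. For `i ≠ j` the sum `∑ k, w i k * w j k = 0` has nonnegative terms (`w i k * w j k = (σ w i k)(σ w j k)`), so all
terms vanish (`Finset.sum_eq_zero_iff_of_nonneg`).  Each `w i` has a nonzero coordinate `f i` (norm 1); `f` is injective,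
hence bijective (`Finite.injective_iff_bijective`).  For `k ≠ f i`, `k = f j` with `j ≠ i`, and `w j k ≠ 0` gives
`w i k = 0`.  So `w i (f i)^2 = 1`, and `σ w i (f i) ≥ 0` gives `w i (f i) = σ`. -/
def S_A1 : Prop :=
  ∀ (m : ℕ) (w : Fin m → Fin m → ℝ) (σ : ℝ), (σ = 1 ∨ σ = -1) →
    (∀ i j, i ≠ j → ∑ k, w i k * w j k = 0) → (∀ i, ∑ k, w i k ^ 2 = 1) →
    (∀ i k, 0 ≤ σ * w i k) →
    ∃ π : Equiv.Perm (Fin m), ∀ i k, w i k = if k = π i then σ else 0

/-- [SM A2] (about 150 lines) Uses A1. Corner lemma: an isometric copy of a cube which contains the corner `v` and lies near `v` in one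
orthant is a lattice cube.
Proof. By Mazur-Ulam (`IsometryEquiv.toRealAffineIsometryEquiv` or `toRealLinearIsometryEquiv`) `h x = A x + h 0` with
`A` a linear isometry.  Let `y = h⁻¹ v ∈ cube c`.  If `|y i - c i| < 1/2` then for small `η > 0` both `y ± η e_i` are in
`cube c`, `h (y ± η e_i) = v ± η A e_i` is within `ε` of `v`, so `sg s * (± η (A e_i) k) ≤ 0` for all `k`: `A e_i = 0`,
contradicting `‖A e_i‖ = 1`.  So `y i = c i + τ i / 2`, `τ i = ±1`.  For small `η > 0`, `y - η τ_i e_i ∈ cube c`, so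
`w_i := - τ_i A e_i` satisfies `0 ≤ - sg s * w_i k`.  The `w_i` are orthonormal, so A1 with `σ = - sg s` gives a permutation
`ρ` with `w_i k = if k = ρ i then - sg s else 0`, i.e. `A e_i = τ_i sg s e_{ρ i}`.  Hence
`h x k = τ (ρ⁻¹ k) * sg s * x (ρ⁻¹ k) + h 0 k`.  Put `π = ρ⁻¹`, `ε k = τ (ρ⁻¹ k) * sg s`.  From `h y = v`:
`q k + sg s / 2 = ε k * (c (π k) + τ (π k) / 2) + h 0 k = ε k * c (π k) + sg s / 2 + h 0 k`, so
`h 0 k = q k - ε k * c (π k)` is the integer `b k`, and `g.act c = q`. -/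
def S_A2 : Prop :=
  ∀ (n : ℕ) (h : Es n ≃ᵢ Es n) (c q : Zc n) (s : Bool) (v : Es n),
    (∀ i, v i = q i + (sg s : ℝ) / 2) → v ∈ h '' cube c →
    (∃ ε > 0, ∀ x ∈ h '' cube c, (∀ i, |x i - v i| < ε) → ∀ i, (sg s : ℝ) * (x i - v i) ≤ 0) →
    ∃ g : CIso n, Induces g h ∧ g.act c = q

/-- [SM A3] (about 80 lines) Uses R4. Local cone: if `A` covers everything near the corner `v` of `q` except the orthant of `q`, then a copy of `B`
with disjoint interior stays in that orthant near `v`.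
Proof. Suppose `x ∈ h '' cube c`, `|x i - v i| < 1/2` for all `i` and `sg s * (x i0 - v i0) > 0`.  The set
`U = {y | (∀ i, |y i - v i| < 1/2) ∧ 0 < sg s * (y i0 - v i0)}` is open and contains `x`; `x ∈ h '' cube c ⊆
closure (h '' ocube c)` (R4, `h` homeomorphism), so there is `y ∈ U ∩ h '' ocube c`.  `h '' ocube c` is open and contained in
`h '' real B`, so `y ∈ interior (h '' real B)`.  `U ⊆ real A`: for `z ∈ U` put `δ i = 1` if `0 < sg s * (z i - v i)`, else `0`;
`δ ≠ 0` because of `i0`; `z ∈ cube (q + sg s δ)`: if `δ i = 1` then `z i - (q i + sg s) = (z i - v i) - sg s / 2` and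
`sg s (z i - v i) ∈ (0, 1/2)`; if `δ i = 0` then `z i - q i = (z i - v i) + sg s / 2`, `sg s (z i - v i) ∈ (-1/2, 0]`.
So `y ∈ interior (real A)`, contradiction. -/
def S_A3 : Prop :=
  ∀ (n : ℕ) (A B : Set (Zc n)) (q c : Zc n) (s : Bool) (v : Es n) (h : Es n ≃ᵢ Es n),
    (∀ i, v i = q i + (sg s : ℝ) / 2) →
    (∀ δ : Zc n, (∀ i, δ i = 0 ∨ δ i = 1) → δ ≠ 0 → (fun i => q i + sg s * δ i) ∈ A) →
    c ∈ B → Disjoint (interior (real A)) (interior (h '' real B)) →
    ∀ x ∈ h '' cube c, (∀ i, |x i - v i| < 1 / 2) → ∀ i, (sg s : ℝ) * (x i - v i) ≤ 0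

/-- [SM A5] (about 100 lines) Uses R4, R7. Local finiteness of tilings.
Proof. Let `p ∈ A` with centre `m` and `D` a bound of the compact set `real A` (R7), `real A ⊆ closedBall m D`.  For every
`G ∈ W` choose `h_G` with `G = h_G '' real A` and put `c_G = h_G m`.  If `G` meets `closedBall 0 R` then
`c_G ∈ closedBall 0 (R + D)`.  `ball c_G (1/2) ⊆ interior G` because `ball m (1/2) ⊆ ocube p ⊆ real A` (`|x i - m i| ≤ dist x m`)
and `h_G` is an isometry.  So for `G ≠ G'` the balls `ball c_G (1/2)` are disjoint and `dist c_G c_G' ≥ 1` (else the midpoint is in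
both).  A subset of a compact set whose points have pairwise distance `≥ 1` is finite (cover the compact set by finitely many
balls of radius `1/2`, each contains at most one point); `G ↦ c_G` is injective. -/
def S_A5 : Prop :=
  ∀ (n : ℕ) (A : Set (Zc n)) (W : Set (Set (Es n))), A.Finite → A.Nonempty → STil (real A) W →
    ∀ R : ℝ, {G | G ∈ W ∧ (G ∩ Metric.closedBall 0 R).Nonempty}.Finite

/-- [SM A4] (about 100 lines) Uses R2, R3, R4, A5. The tile at the bottom of a hole.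
Proof. `x_k = v - (sg s/(k+2)) (1,...,1)` lies in `ocube q` (coordinates `q i + sg s (1/2 - 1/(k+2))`) and tends to `v`.
Every `x_k` lies in some `G_k ∈ W`; all `G_k` meet a fixed ball, so by A5 they take finitely many values and one `G` contains
`x_k` for infinitely many `k` (`Set.infinite_univ`, pigeonhole / `Finite.exists_infinite_fiber`).  `G ≠ real A` since
`x_k ∉ real A` (R2, `q ∉ A`).  Let `G = h '' real A = ⋃ c ∈ A, h '' cube c` with `A` finite; one `h '' cube c` contains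
`x_k` for infinitely many `k`; it is closed (compact), so it contains the limit `v`. -/
def S_A4 : Prop :=
  ∀ (n : ℕ) (A : Set (Zc n)) (W : Set (Set (Es n))) (q : Zc n) (s : Bool) (v : Es n),
    A.Finite → A.Nonempty → STil (real A) W → q ∉ A →
    (∀ i, v i = q i + (sg s : ℝ) / 2) →
    ∃ G ∈ W, G ≠ real A ∧ ∀ h : Es n ≃ᵢ Es n, G = h '' real A → ∃ c ∈ A, v ∈ h '' cube c

/-- [SM A6] (about 60 lines) Uses R6, R10b, A2, A3, A4. Alignment.
Proof. Let `v = toLp (q i + sg s / 2)` and `G` from A4 (`A` is nonempty: take `δ = 1`).  Given `h` with `G = h '' real A`, take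
`c` from A4.  Since `G ≠ real A` the interiors are disjoint; A3 (with `B = A`) gives the hypothesis of A2 with `ε = 1/2`,
so there is `g` with `Induces g h`, `g.act c = q`, hence `q ∈ g.act '' A`.  `h '' real A = real (g.act '' A)` (R10b), and
disjoint interiors give disjoint cells (R6). -/
def S_A6 : Prop :=
  ∀ (n : ℕ) (A : Set (Zc n)) (W : Set (Set (Es n))) (q : Zc n) (s : Bool),
    A.Finite → STil (real A) W → real A ∈ W → q ∉ A →
    (∀ δ : Zc n, (∀ i, δ i = 0 ∨ δ i = 1) → δ ≠ 0 → (fun i => q i + sg s * δ i) ∈ A) →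
    ∃ G ∈ W, ∀ h : Es n ≃ᵢ Es n, G = h '' real A →
      ∃ g : CIso n, Induces g h ∧ q ∈ g.act '' A ∧ Disjoint (g.act '' A) A

/-- [SM K1] (about 25 lines) Lateral axes.
Proof. `List.mem_filter`, `List.nodup_finRange`; nonempty: one of the axes `1`, `2` is different from `a`; both are allowed
(only the pair `a = 2`, `c = 0` is excluded). -/
def S_K1 : Prop :=
  ∀ (n : ℕ) (a : Dx n), a ∉ lats a ∧ (lats a).Nodup ∧ lats a ≠ [] ∧
    ∀ c, c ∈ lats a ↔ (c ≠ a ∧ ¬ (a.val = 2 ∧ c.val = 0))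

/-- [SM K2] (about 70 lines) Uses K1. Counting the axes in an initial part of the path.
Proof. `dirs = replicate run a ++ lats a ++ [a]`, `len = run + |lats a| + 1`.  `List.take_append`, `List.count_append`,
`List.count_replicate`; `count c (take _ (lats a)) ≤ 1` by `Nodup` (sublist), and it is `0` for `c ∉ lats a`. -/
def S_K2 : Prop :=
  ∀ (n : ℕ) (κ : Key n) (j : ℕ), j ≤ κ.len →
    (∀ c, c ≠ κ.a → (κ.dirs.take j).count c ≤ 1) ∧
    (∀ c, c ≠ κ.a → c ∉ lats κ.a → (κ.dirs.take j).count c = 0) ∧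
    (j ≤ κ.run → (κ.dirs.take j).count κ.a = j) ∧
    (κ.run ≤ j → j < κ.len → (κ.dirs.take j).count κ.a = κ.run) ∧
    (j = κ.len → (κ.dirs.take j).count κ.a = κ.run + 1) ∧
    κ.run + 2 ≤ κ.len

/-- [SM K3] (about 70 lines) Uses K1, K2. Bounds for the micro coordinates.
Proof. Unfold `q`, `leaf`; `sg = ±1`.  `c = a`: `q = -sg (KK - 1 - run) - sg * count`, `count ≤ run` for `j < len`, `= run + 1` for
`j = len`; `run ≤ 2n+7`, `KK = 8n+24`.  `c ≠ a`: if `a = 2, c = 0` the value is `0`; otherwise it is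
`sg + o - sg * count` with `count ∈ {0,1}` and `o = 0` or `o = off`, `0 ≤ off ≤ 4 (2 n + 5)`. -/
def S_K3 : Prop :=
  ∀ (n : ℕ) (κ : Key n) (j : ℕ), j ≤ κ.len →
    (∀ c, |κ.q j c| ≤ KK n) ∧ (∀ c, c ≠ κ.a → |κ.q j c| ≤ KK n - 1) ∧
    (j < κ.len → |κ.q j κ.a| ≤ KK n - 1) ∧ κ.q κ.len κ.a = - sg κ.s * KK n

/-- [SM K4] (about 40 lines) Uses K1, K2. Different keys with axes `≥ 3` are separated in the `x`-coordinate.
Proof. `q j (ax n) ∈ {off, off + sg s}` (`ax n ≠ a`, `leaf = sg s + off`, count `≤ 1`), `off = 4 idx`.  The keys are different, `B = 0`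
for both, so the indices `idx = 2a + [s = false]` are different and the values differ by at least `4 - 2`. -/
def S_K4 : Prop :=
  ∀ (n : ℕ) (κ κ' : Key n) (j j' : ℕ), 3 ≤ κ.a.val → 3 ≤ κ'.a.val → κ ≠ κ' → j ≤ κ.len →
    j' ≤ κ'.len → 2 ≤ |κ.q j (ax n) - κ'.q j' (ax n)|

/-- [SM K5] (about 20 lines) The paths are monotone.
Proof. `q i c - q j c = sg s * (count_j - count_i)`, `count` of `take i` is `≤` count of `take j`, `sg^2 = 1`. -/
def S_K5 : Prop :=
  ∀ (n : ℕ) (κ : Key n) (i j : ℕ), i ≤ j → ∀ c, 0 ≤ sg κ.s * (κ.q i c - κ.q j c)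

/-- [SM K6] (about 40 lines) The `l1`-distance along the path.
Proof. By `K5`-type monotonicity each absolute value is `count c (take j) - count c (take i)`; the sum over all `c` of
`count c l` is `l.length` (`List.sum_count`-type lemma, or induction on the list), `(take j).length = j`. -/
def S_K6 : Prop :=
  ∀ (n : ℕ) (κ : Key n) (i j : ℕ), i ≤ j → j ≤ κ.len →
    ∑ c, |κ.q i c - κ.q j c| = (j : ℤ) - i

/-- [SM K7] (about 20 lines) One step of the path.
Proof. `List.take_succ` / `List.take_concat_get`, `List.count_append`, `List.count_singleton`. -/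
def S_K7 : Prop :=
  ∀ (n : ℕ) (κ : Key n) (j : ℕ) (hj : j < κ.dirs.length) (c : Dx n),
    κ.q (j + 1) c = κ.q j c - (if c = κ.dirs[j] then sg κ.s else 0)

/-- [SM K8a] (about 60 lines) The macro cells used by the keys.
Proof. Split into `a = 0, 1, 2, ≥ 3`, `s`, and `B = 0, 1, 2` for `a = 2`.
Bases: `x+ (0,0,0)`, `x- (5,0,1)`, `y+ (2,0,0)`, `y- (2,4,1)`, `z+ (2B,3,0)`, `z- (2B,2,1)`, `u (2,1,0)`, all in `InP`.
`base + v`: `(6,0,0)`, `(-1,0,1)`, `(2,5,0)`, `(2,-1,1)`, `(2B,1,2)`, `(2B,4,-1)`, `(2,1,0) ± e_a`, not in `PP` (the last because of the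
coordinate `a ≥ 3`).  `base + v - sg s e_a`: `(5,0,0)`, `(0,0,1)`, `(2,4,0)`, `(2,0,1)`, `(2B,1,1)`, `(2B,4,0)`, `(2,1,0)`, in `PP`.
`base - sg s e_a`: `(-1,0,0)`, `(6,0,1)`, `(2,-1,0)`, `(2,5,1)`, `(2B,3,-1)`, `(2B,2,2)`, `(2,1,0) ∓ e_a`, not in `PP`. -/
def S_K8a : Prop :=
  ∀ (n : ℕ) (κ : Key n), κ.base ∈ PP n ∧ (fun c => κ.base c + κ.v c) ∉ PP n ∧
    (fun c => κ.base c + κ.v c - (if c = κ.a then sg κ.s else 0)) ∈ PP n ∧
    (fun c => κ.base c - (if c = κ.a then sg κ.s else 0)) ∉ PP n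

/-- [SM K8b] (about 60 lines) Different keys have different bases, except for the keys with axes `≥ 3`, and the macro cells of the tails
are always different.
Proof. Lists in the docstring of K8a; compare the coordinates `0, 1, 2` (and `a` for the tails of keys with `a ≥ 3`). -/
def S_K8b : Prop :=
  ∀ (n : ℕ) (κ κ' : Key n),
    (κ.base = κ'.base → κ = κ' ∨ (3 ≤ κ.a.val ∧ 3 ≤ κ'.a.val)) ∧
    ((∀ c, κ.base c + κ.v c = κ'.base c + κ'.v c) → κ = κ')

/-- [SM K8c] (about 60 lines) The macro cell below a tail is no base, except for axes `≥ 3`; the three special cells are no bases.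
Proof. `base + v - sg s e_a` is `(5,0,0)`, `(0,0,1)`, `(2,4,0)`, `(2,0,1)`, `(2B,1,1)`, `(2B,4,0)`, `(2,1,0)`; the bases are
`(0,0,0)`, `(5,0,1)`, `(2,0,0)`, `(2,4,1)`, `(2B,3,0)`, `(2B,2,1)`, `(2,1,0)`. -/
def S_K8c : Prop :=
  ∀ (n : ℕ) (κ κ' : Key n),
    ((∀ c, κ'.base c = κ.base c + κ.v c - (if c = κ.a then sg κ.s else 0)) →
      3 ≤ κ.a.val ∧ 3 ≤ κ'.a.val) ∧
    ¬ (κ.base (ax n) = 5 ∧ κ.base (ay n) = 3 ∧ κ.base (az n) = 1) ∧
    ¬ (κ.base (ax n) = 1 ∧ κ.base (ay n) = 1 ∧ κ.base (az n) = 3) ∧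
    ¬ (κ.base (ax n) = 1 ∧ κ.base (ay n) = 0 ∧ κ.base (az n) = 9)

/-- [SM D0] (about 60 lines) The set of keys and the set of cells of the tile are finite.
Proof. `Key n` embeds into `Dx n × Bool × Fin 3`.  `PP n` is finite (coordinates in `[0,9]`, or `0`), for each `c` the set
`{p | InMega c p}` is an `Icc`, the tails are finitely many cells. -/
def S_D0 : Prop :=
  ∀ (n : ℕ), Finite (Key n) ∧ (SS n).Finite

/-- [SM D1] (about 40 lines) The macro cells partition the cells.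
Proof. Uniqueness: `MM |c i - c' i| ≤ 2 KK < MM`.  Existence: `c i = (p i + KK) / MM` (Euclidean division by `MM = 2 KK + 1`). -/
def S_D1 : Prop :=
  ∀ (n : ℕ) (p : Zc n), ∃! c : Zc n, InMega c p

/-- [SM D2] (about 25 lines) Uses K3. Tunnel and tail cells lie in the macro cells `base` and `base + v`. -/
def S_D2 : Prop :=
  ∀ (n : ℕ) (κ : Key n) (j : ℕ), j ≤ κ.len →
    InMega κ.base (κ.tun j) ∧ InMega (fun c => κ.base c + κ.v c) (κ.tail j)

/-- [SM D3] (about 40 lines) Uses D1, D2, K8a. Inside a macro cell of `PP` the tile is everything except tunnels; outside it consists of tails.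
Proof. A tail cell lies in the macro cell `base + v`, which is not in `PP` (K8a), and macro cells are unique (D1).  A cell of `Sol`
lies in a macro cell of `PP`. -/
def S_D3 : Prop :=
  ∀ (n : ℕ) (c p : Zc n), InMega c p →
    (c ∈ PP n → (p ∈ SS n ↔ p ∉ Tuns n)) ∧ (c ∉ PP n → (p ∈ SS n ↔ p ∈ Tails n))

/-- [SM D5] (about 40 lines) Uses D1, D2, K4, K8b. Near a tunnel there is no other tunnel.
Proof. `p = κ'.tun j'`.  `InMega κ'.base p` (D2), so `κ'.base = κ.base` (D1).  By K8b `κ = κ'` (done) or both axes are `≥ 3`; in the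
latter case, if `κ ≠ κ'`, K4 gives `2 ≤ |κ.q j (ax n) - κ'.q j' (ax n)| = |κ.tun j (ax n) - p (ax n)| ≤ 1`. -/
def S_D5 : Prop :=
  ∀ (n : ℕ) (κ : Key n) (j : ℕ) (p : Zc n), j ≤ κ.len → InMega κ.base p →
    |p (ax n) - κ.tun j (ax n)| ≤ 1 → p ∈ Tuns n → ∃ j' ≤ κ.len, p = κ.tun j'

/-- [SM K9] (about 60 lines) Uses D1, D2, K3, K4, K5, K8a, K8c. The cell below the first cell of a tail is a solid cell of the tile.
Proof. Let `p = κ.tail len - sg s e_a`.  In coordinate `a`: `tail len a = MM (base a + v a) - sg s KK`, so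
`p a = MM (base a + v a - sg s) + sg s (MM - KK - 1)` and `MM - KK - 1 = KK`; the other coordinates are unchanged.  So `p` is in the
macro cell `base + v - sg s e_a ∈ PP` (K8a).  Suppose `p = κ'.tun j'`.  Then `κ'.base = base + v - sg s e_a` (D1, D2).  By K8c
this forces `3 ≤ a`, `3 ≤ κ'.a`, both bases `(2,1,0)`.  If `κ' ≠ κ`, K4 contradicts equality of the `x`-coordinates
(`MM * 2 + q_x`).  If `κ' = κ`: the `a`-coordinate of `p` is `sg s KK`, but `sg s * q j' a ≤ 0` (K5 with `i = 0`: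
`sg s * (q 0 a - q j' a) ≥ 0`; `sg s * q 0 a = -(KK - 1 - run) < 0`) gives a contradiction. -/
def S_K9 : Prop :=
  ∀ (n : ℕ) (κ : Key n),
    (fun c => κ.tail κ.len c - (if c = κ.a then sg κ.s else 0)) ∈ Sol n \ Tuns n

/-- [SM C1a] (about 50 lines) Uses D3, D2, K7, K8a, K9, K6. Cells of a tail other than the leaf have two neighbours in the tile.
Proof. `p1 = κ.tail (j-1)`, and `p2 = κ.tail (j+1)` if `j < len`, or the cell of K9 if `j = len`.  One step changes one coordinate by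
one (K7).  All are in `SS`.  `κ.tail (j-1) ≠ κ.tail (j+1)` by K6 (`l1`-distance 2); the cell of K9 is not a tail cell of `κ`
since it is in `Sol` and tails are not (D2, K8a). -/
def S_C1a : Prop :=
  ∀ (n : ℕ) (κ : Key n) (j : ℕ), 1 ≤ j → j ≤ κ.len → ∃ p1 p2 : Zc n, p1 ≠ p2 ∧
    p1 ≠ κ.tail j ∧ p2 ≠ κ.tail j ∧ p1 ∈ SS n ∧ p2 ∈ SS n ∧ Nb (κ.tail j) p1 ∧ Nb (κ.tail j) p2

/-- [SM C1b] (about 110 lines) Uses D1, D2, D3, D5, K5. Solid cells have two neighbours in the tile.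
Proof. `p` is in `mega c`, `c ∈ PP`.  For `i ∈ {0,1,2}` let `δ i = -1` if `0 < p i - MM c i`, else `1`; then
`|p i + δ i - MM c i| ≤ KK`.  Two of `δ 0, δ 1, δ 2` are equal, say `δ i = δ j = δ` with third axis `k`.
Claim: for `t ∈ {0, δ k}` the cells `p + δ e_i + t e_k` and `p + δ e_j + t e_k` are not both tunnel cells.  Both are in `mega c`.  If the first
is `κ.tun j1` then `κ.base = c` (D1, D2), the `x`-coordinates differ by at most one, so by D5 the second is `κ.tun j2`.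
The difference of the two cells is `δ (e_i - e_j)`, but by K5 all coordinates of `sg s * (q j1 - q j2)` have the same sign
(`≥ 0` if `j1 ≤ j2`, `≤ 0` if `j2 ≤ j1`): contradiction.  So one cell of each of the two pairs is in `SS` (D3); they are different (third
coordinate), different from `p`, and neighbours of `p`. -/
def S_C1b : Prop :=
  ∀ (n : ℕ) (p : Zc n), p ∈ Sol n → p ∉ Tuns n → ∃ p1 p2 : Zc n, p1 ≠ p2 ∧
    p1 ≠ p ∧ p2 ≠ p ∧ p1 ∈ SS n ∧ p2 ∈ SS n ∧ Nb p p1 ∧ Nb p p2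

/-- [SM C2] (about 50 lines) Uses D2, D3, D5, K2, K3, K8a. Neighbours of the last cell of a tunnel.
Proof. `|q 0 c| ≤ KK - 1` for all `c` (K3, `0 < len`), so a neighbour `p` of `tun 0` is in `mega base`; if `p ∉ SS` then `p ∈ Tuns` (D3) and
`p = κ.tun j'` (D5).  If `2 ≤ j'` then the count of `a` in `take j'` is `≥ 2` (K2: `run ≥ 2`), so `|p a - tun 0 a| ≥ 2`, contradiction.
`κ.tun j` is a tunnel cell in `mega base`, `base ∈ PP`, so not in `SS` (D3). -/
def S_C2 : Prop :=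
  ∀ (n : ℕ) (κ : Key n), (∀ j ≤ κ.len, κ.tun j ∉ SS n) ∧
    ∀ p : Zc n, Nb (κ.tun 0) p → p ∉ SS n → p = κ.tun 0 ∨ p = κ.tun 1

/-- [SM C3] (about 40 lines) Uses D2, D3, D5, K3, K6, K8a. Facet neighbours of an inner cell of a tunnel.
Proof. As in C2: `|q j c| ≤ KK - 1` for all `c` (K3, `j < len`), a facet neighbour changes coordinates by at most one, so `p ∈ mega base`,
`p ∈ Tuns`, `p = κ.tun j'` (D5), and by K6 (with `i, j` in the right order) `|j - j'| = ∑ |..| = 1`. -/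
def S_C3 : Prop :=
  ∀ (n : ℕ) (κ : Key n) (j : ℕ) (p : Zc n), j < κ.len → Fadj (κ.tun j) p → p ∉ SS n →
    p = κ.tun (j + 1) ∨ (1 ≤ j ∧ p = κ.tun (j - 1))

/-- [SM C4a] (about 70 lines) Uses C2, C3, K6, K7. Path following.
Proof. `g.act` is injective and preserves `Nb` and `Fadj` (sums reindexed by `g.π`).  Induction on `j`.  `j = 0`: hypothesis.  Step `j → j+1`
(`j + 1 ≤ len κ, len κ'`): `x = g.act (κ'.tail (j+1))` is a facet neighbour of `g.act (κ'.tail j) = κ.tun j` (K6 with `j, j+1`: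
`l1`-distance one; `tail = tun + const`), and `x ∉ SS` (it is in `g.act '' SS`, disjoint from `SS`; tail cells are in `SS`).  By C3
`x = κ.tun (j+1)`, or `j ≥ 1` and `x = κ.tun (j-1) = g.act (κ'.tail (j-1))`, impossible because `g.act` is injective and
`κ'.tail (j-1) ≠ κ'.tail (j+1)` (K6). -/
def S_C4a : Prop :=
  ∀ (n : ℕ) (g : CIso n) (κ κ' : Key n), Disjoint (g.act '' SS n) (SS n) →
    g.act (κ'.tail 0) = κ.tun 0 →
    ∀ j, j ≤ κ.len → j ≤ κ'.len → g.act (κ'.tail j) = κ.tun j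

/-- [SM C4b] (about 100 lines) Uses K1, K2, K7. Decoding.
Proof. Write `D = κ.dirs`, `D' = κ'.dirs`.  For `j < min (len κ) (len κ')` subtract the equations for `j + 1` and `j` and use K7: for every
coordinate `i`: `g.ε i * (if g.π i = D'[j] then sg s' else 0) = (if i = D[j] then sg s else 0)`.  With `i = D[j]`:
`g.π (D[j]) = D'[j]` and `g.ε (D[j]) = sg s * sg s'`.  (*)
Run lengths: let `r = run κ`, `r' = run κ'` (both `≥ 2`, and `len ≥ run + 2`).  If `r < r'`: `j = 0` gives `π a = a'`, `j = r` gives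
`π (D[r]) = D'[r] = a'` with `D[r] ∈ lats a`, `D[r] ≠ a`, contradicting injectivity.  If `r' < r`: `j = r'`: `D[r'] = a`,
`π a = D'[r'] ≠ a'`, but `π a = a'`.  So `r = r'`, hence `idx = idx'`, `2a + [¬s] = 2a' + [¬s']`, so `a = a'`, `s = s'`,
`D = D'` and by (*) `π c = c`, `ε c = 1` for all `c ∈ D`.  `D` contains all axes except `0` in the case `a = 2` (K1), and a
permutation fixing all other elements fixes the last one. -/
def S_C4b : Prop :=
  ∀ (n : ℕ) (g : CIso n) (κ κ' : Key n),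
    (∀ j, j ≤ κ.len → j ≤ κ'.len → g.act (κ'.tail j) = κ.tun j) →
    κ'.a = κ.a ∧ κ'.s = κ.s ∧ (∀ c, g.π c = c) ∧
      (∀ c : Dx n, (κ.a.val ≠ 2 ∨ c.val ≠ 0) → g.ε c = 1)

/-- [SM C4] (about 50 lines) Uses C1a, C1b, C2, C4a, C4b. Matching.
Proof. `κ.tun 0 = g.act p` with `p ∈ SS`.  By C1a, C1b (`SS = (Sol \ Tuns) ∪ Tails`) either `p = κ'.tail 0` for some `κ'`, or there are
two different neighbours `p1, p2 ≠ p` of `p` in `SS`.  In the second case `g.act p1, g.act p2` are neighbours of `κ.tun 0`, not in `SS`,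
different from `κ.tun 0` and from each other, contradicting C2.  Then C4a and C4b. -/
def S_C4 : Prop :=
  ∀ (n : ℕ) (g : CIso n) (κ : Key n), Disjoint (g.act '' SS n) (SS n) →
    κ.tun 0 ∈ g.act '' SS n → ∃ κ' : Key n, κ'.a = κ.a ∧ κ'.s = κ.s ∧ (∀ c, g.π c = c) ∧
      (∀ c : Dx n, (κ.a.val ≠ 2 ∨ c.val ≠ 0) → g.ε c = 1) ∧ g.act (κ'.tail 0) = κ.tun 0

/-- [SM C5] (about 70 lines) The relative placement.
Proof. `P.s = true` iff `g.ε 0 = 1`.  `κ.a ≠ 2`: `κ' = κ` (`B = 0` for both), `ε = 1`, so `κ.tail 0 c + g.b c = κ.tun 0 c` and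
`g.b c = - MM * κ.v c`; `P = ⟨true, -κ.v⟩`.  `κ.a = 2`: for `c ≠ 0` the base, leaf and `v` of `κ, κ'` agree in coordinate `c` (they do not
depend on `B`), so `g.b c = - MM * κ.v c`; for `c = 0` the leaf coordinate is `0`, `v = 0`, `base = 2 B`, so
`g.ε 0 * MM * 2 B' + g.b 0 = MM * 2 B`.  `P.V 0 = 2 (B - ε B')`, `P.V c = - κ.v c`. -/
def S_C5 : Prop :=
  ∀ (n : ℕ) (g : CIso n) (κ κ' : Key n), κ'.a = κ.a → κ'.s = κ.s → (∀ c, g.π c = c) →
      (∀ c : Dx n, (κ.a.val ≠ 2 ∨ c.val ≠ 0) → g.ε c = 1) → g.act (κ'.tail 0) = κ.tun 0 →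
      ∃ P : Pl n, PlOK κ P ∧ ∀ h : Es n ≃ᵢ Es n, Induces g h → IsPl P h

/-- [SM F1] (about 50 lines) Uses A6, C2, C4, C5, D0, K7, K2. The tile filling a tunnel.
Proof. Apply A6 with `A = SS n`, `q = κ.tun 0`, `s = κ.s`: `q ∉ SS` (C2); for `δ ∈ {0,1}^d`, `δ ≠ 0`, the cell `q + sg s δ` is a neighbour of `q`,
different from `q` and from `κ.tun 1 = q - sg s e_a` (K7, `dirs[0] = a`), so it is in `SS` (C2).  For `h` with `G = h '' TT` we get `g`
with `Induces g h`, and C4, C5 give `P`. -/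
def S_F1 : Prop :=
  ∀ (n : ℕ) (W : Set (Set (Es n))) (κ : Key n), STil (TT n) W → TT n ∈ W →
    ∃ G ∈ W, ∀ h : Es n ≃ᵢ Es n, G = h '' TT n → ∃ P : Pl n, PlOK κ P ∧ IsPl P h

/-- [SM F2] (about 50 lines) Tilings can be moved by isometries.
Proof. Images of congruent copies are congruent copies (composition of isometries), `φ` is a homeomorphism so it maps interiors to
interiors (`Homeomorph.image_interior`), images of disjoint sets are disjoint, the union of the images is everything. -/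
def S_F2 : Prop :=
  ∀ (n : ℕ) (T : Set (Es n)) (W : Set (Set (Es n))) (φ : Es n ≃ᵢ Es n), STil T W →
    STil T ((fun X => φ '' X) '' W)

/-- [SM F4] (about 60 lines) Uses F1, F2, R11a, R12. The tile filling a tunnel of a tile of the tiling.
Proof. Take `hg` with `IsPl g hg` (R11a), `W' = (hg.symm '' ·) '' W` is a tiling (F2) containing `TT n` (`hg '' TT ∈ W`).  F1 gives
`G' ∈ W'`, `G' = hg.symm '' G`, `G ∈ W`, `G = h '' TT n` for some `h`, so `G' = (h.trans hg.symm) '' TT n` and there is `P` with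
`PlOK κ P`, `IsPl P (h.trans hg.symm)`.  By R12 (3), `IsPl (g.comp P) ((h.trans hg.symm).trans hg)`, and this isometry is `h`.  Any
`h'` with `IsPl (g.comp P) h'` agrees with `h` (R12 (2)), so `h' '' TT n = G ∈ W`. -/
def S_F4 : Prop :=
  ∀ (n : ℕ) (W : Set (Set (Es n))) (g : Pl n) (κ : Key n), STil (TT n) W → InW W g →
    ∃ P : Pl n, PlOK κ P ∧ InW W (g.comp P)

/-- [SM F5a] (about 70 lines) Uses F4. Lattice translations in one coordinate.
Proof. For `a ≠ 2` and both signs `s` take the key `⟨a, s, 0, _⟩` in F4: `P = ⟨true, -v⟩`, `g.comp P = ⟨g.s, ..⟩` with the coordinate `a`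
of `V` changed by `± per` (`per = 6, 5, 1`; for `a = 0` the sign is multiplied by `sg g.s`, both signs occur).  So `InW` is preserved by
adding `± per` in coordinate `a`; induction on `k` (`Int.induction_on`). -/
def S_F5a : Prop :=
  ∀ (n : ℕ) (W : Set (Set (Es n))) (g : Pl n) (a : Dx n) (k : ℤ), STil (TT n) W → InW W g →
    a.val ≠ 2 → InW W ⟨g.s, fun i => g.V i +
      (if i = a then k * (if a.val = 0 then 6 else if a.val = 1 then 5 else 1) else 0)⟩

/-- [SM F5] (about 60 lines) Uses F5a. Lattice translations.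
Proof. Change the coordinates one after the other: for every finite set `F` of axes `InW W ⟨g.s, fun i => if i ∈ F then g'.V i else g.V i⟩`,
by `Finset.induction_on` and F5a (for the axis `2` nothing changes).  Take `F = univ`. -/
def S_F5 : Prop :=
  ∀ (n : ℕ) (W : Set (Set (Es n))) (g g' : Pl n), STil (TT n) W → InW W g → g'.s = g.s →
    (6 : ℤ) ∣ g'.V (ax n) - g.V (ax n) → (5 : ℤ) ∣ g'.V (ay n) - g.V (ay n) →
    g'.V (az n) = g.V (az n) → InW W g'

/-- [SM F6] (about 70 lines) Uses F4, F5. The next layer.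
Proof. Use F4 with the key `κ = ⟨az n, !e, 0, _⟩` (`sg (!e) = - sg e`, `v = (0, 2 sg e, -2 sg e)` in the coordinates `0,1,2`):
`P.V 1 = - 2 sg e`, `P.V 2 = 2 sg e`, `P.V i = 0` for `i ≥ 3`, `P.V 0` even.  `g' = (anc n k c).comp P` has
`g'.V 1 = -2 (k + sg e)`, `g'.V 2 = 2 (k + sg e)`, `g'.V 0` even; take `c' = (g'.s, t')` with `t' ∈ {0,1,2}`, `2 t' ≡ g'.V 0 mod 6`, and
F5 from `g'` to `anc n (k + sg e) c'`. -/
def S_F6 : Prop :=
  ∀ (n : ℕ) (W : Set (Set (Es n))) (k : ℤ) (c : Bool × Fin 3) (e : Bool), STil (TT n) W →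
    InW W (anc n k c) → ∃ c' : Bool × Fin 3, InW W (anc n (k + sg e) c')

/-- [SM F7] (about 50 lines) Uses F6. Existence of the chain.
Proof. `InW W (anc n 0 (true, 0))`: `IsPl (anc n 0 (true,0)) h` means `h x = x`, so `h '' TT = TT ∈ W`.  Recursion (choice) upwards and
downwards with F6: e.g. build `f : ℕ → Bool × Fin 3` with `InW W (anc n i (f i))`, `f 0 = (true,0)`, and `f'` with
`InW W (anc n (-i) (f' i))`, `f' 0 = (true, 0)`, and put `γ k = f k.toNat` for `0 ≤ k`, `f' (-k).toNat` otherwise. -/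
def S_F7 : Prop :=
  ∀ (n : ℕ) (W : Set (Set (Es n))), STil (TT n) W → TT n ∈ W →
    ∃ γ : Gam, γ 0 = (true, 0) ∧ ∀ k : ℤ, InW W (anc n k (γ k))

/-- [SM F8] (about 20 lines) Uses F5. All placements of the chain belong to the tiling.
Proof. `g ∈ Ch γ` with `g.V 2 = 2 k`; apply F5 from `anc n k (γ k)`: `g.V 1 - (-2k) = g.V 1 + g.V 2`. -/
def S_F8 : Prop :=
  ∀ (n : ℕ) (W : Set (Set (Es n))) (γ : Gam), STil (TT n) W →
    (∀ k : ℤ, InW W (anc n k (γ k))) → ∀ g ∈ Ch (n := n) γ, InW W g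

/-- [SM F9a] (about 50 lines) Uses F1, F2. The tile has no symmetry.
Proof. `W` is nonempty, `G = h '' TT ∈ W`; replacing `W` by its image under `h.symm` (F2) we may assume `TT n ∈ W`.  F1 with the key
`κ = ⟨ax n, true, 0, _⟩` gives `G ∈ W` such that every `h` with `G = h '' TT` satisfies `IsPl P h` with `P = ⟨true, -κ.v⟩` (PlOK, and `P` is
determined).  Let `h0` be one such `h` (`STil`).  Then `φ.trans h0` is another one (`h0 '' (φ '' TT) = G`), so
`h0 (φ x) = h0 x` for all `x`. -/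
def S_F9a : Prop :=
  ∀ (n : ℕ) (W : Set (Set (Es n))), STil (TT n) W →
    ∀ φ : Es n ≃ᵢ Es n, φ '' TT n = TT n → ∀ x, φ x = x

/-- [SM F9b] (about 40 lines) Uses D1, D2, D3, K8c. The macro cells of the own cube, the side cube and the top contain no tunnel; so their central cells are in the tile.
Proof. The three cells are in `PP` and are not a base (K8c), so by D1, D2 the central cell
`MM * c` of `mega c` is not a tunnel cell and D3 applies.  (Here `MM * c i` with `c = (5,3,1,0..)`, `(1,1,3,0..)`, `(1,0,9,0..)`.) -/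
def S_F9b : Prop :=
  ∀ (n : ℕ) (c : Zc n), (∀ i : Dx n, 3 ≤ i.val → c i = 0) →
    ((c (ax n) = 5 ∧ c (ay n) = 3 ∧ c (az n) = 1) ∨ (c (ax n) = 1 ∧ c (ay n) = 1 ∧ c (az n) = 3) ∨
      (c (ax n) = 1 ∧ c (ay n) = 0 ∧ c (az n) = 9)) →
    (fun i => MM n * c i) ∈ SS n

/-- [SM F9c] (about 60 lines) Uses F9a, R6, R11a, R11b, R12. Two placements in a tiling whose cells meet are equal.
Proof. Take isometries `h1, h2` (R11a).  `G_i = h_i '' TT = real (g_i.act '' SS)` (R11b) are in `W`.  The cell sets are not disjoint, so by R6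
the interiors are not disjoint and `G_1 = G_2` (`STil`).  So `(h1.trans h2.symm) '' TT = TT` and by F9a `h1 = h2` pointwise, so
`IsPl g1 h2`-type equality gives `g1 = g2` (R12 (1)). -/
def S_F9c : Prop :=
  ∀ (n : ℕ) (W : Set (Set (Es n))) (g1 g2 : Pl n) (p : Zc n), STil (TT n) W → InW W g1 →
    InW W g2 → p ∈ g1.act '' SS n → p ∈ g2.act '' SS n → g1 = g2

/-- [SM F9] (about 120 lines) Uses F9b, F9c. The chain of a tiling is valid.
Proof. Fix `k`.  Suppose e.g. `oc (γ k) = zc (γ (k-1))`.  Let `g1 = anc n k (γ k) = (s, (2t, -2k, 2k, 0..))` and `c1 = (5,3,1,0..)`,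
`g1.mact c1 = (5 s + 2t, 3 - 2k, 1 + 2k, 0..)`.  Let `c2 = (1,1,3,0..)` and `g2 = (s', (X, -2(k-1), 2(k-1), 0..))` with `γ (k-1) = (s', t')`
and `X = 5 s + 2 t - s'`; then `X ≡ 2t' mod 6` because `oc (γ k) = zc (γ (k-1))`, so `g2 ∈ Ch γ`, and
`g2.mact c2 = (s' + X, 1 - 2(k-1), 3 + 2(k-1), 0..) = g1.mact c1`.  The cell `MM * g1.mact c1 = g1.act (MM * c1)` is in both
`g_i.act '' SS` (F9b), so `g1 = g2` (F9c), but `V 2` is different.  In the same way `oc (γ k) = zc (γ (k-4))` with the cells `(5,3,1)` of layer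
`k` and `(1,0,9)` of layer `k-4`: `y: 3 - 2k ≡ 0 - 2(k-4) mod 5` (take `V 1 = 3 - 2k`, which is `≡ - V 2 mod 5`),
`z: 1 + 2k = 9 + 2(k-4)`.  And `zc (γ (k-1)) = zc (γ (k-4))` with `(1,1,3)` of layer `k-1` and `(1,0,9)` of layer `k-4`. -/
def S_F9 : Prop :=
  ∀ (n : ℕ) (W : Set (Set (Es n))) (γ : Gam), STil (TT n) W →
    (∀ g ∈ Ch (n := n) γ, InW W g) → Valid γ

/-- [SM P1b] (about 150 lines) The macro chain covers every macro cell exactly once (arithmetic form).
Proof. Let `K0 = Z / 2`, `e = Z % 2`, `η = (Y + 2 K0) % 5`; `k = K0 - j` has `Z - 2k = e + 2j` and `(Y + 2k) % 5 = (η - 2j) % 5`; `InP` requires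
`0 ≤ z ≤ 9`, so `0 ≤ j ≤ 4`.  The number `x = (sg s * (X - 2t)) % 6` has the parity of `X`.
`X` even: `x ∈ {0,2,4}`; `InP` holds iff `z ∈ {0,1}` (`y ∈ {0,..,4}` arbitrary), iff `j = 0`.
`X` odd: `x ∈ {1,3,5}`; `InP` holds iff `y = 0 ∧ 0 ≤ z ≤ 8`, or `x = 1, y = 0, z = 9`, or `x = 1, y = 1, z = 3`, or `x = 5, y = 3, z = 1`; and
`x = 1 ↔ X % 6 = zc (γ k)`, `x = 5 ↔ X % 6 = oc (γ k)` (check the 6 values of `(s,t)`).
`η = 0, 2, 4, 1`: only `j = 0, 1, 2, 3` (`y = 0`, `z = e + 2j ≤ 7`; the special cells have `e = 1, η = 3`: `j = 4: y = (η - 8) % 5 = 0` needs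
`η = 3`; `j = 1, y = 1` needs `η = 3`; `j = 0, y = 3` needs `η = 3`).  `η = 3, e = 0`: `j = 4`, `z = 8`.
`η = 3, e = 1` : `j = 0` iff `X % 6 = oc (γ K0)`, `j = 1` iff `X % 6 = zc (γ (K0-1))`, `j = 4` iff `X % 6 = zc (γ (K0-4))`; by validity these
are three different elements of `{1,3,5}`, and `X % 6 ∈ {1,3,5}`, so exactly one holds. -/
def S_P1b : Prop :=
  ∀ (γ : Gam), Valid γ → ∀ X Y Z : ℤ, ∃! k : ℤ,
    InP ((sg (γ k).1 * (X - 2 * ((γ k).2.val : ℤ))) % 6) ((Y + 2 * k) % 5) (Z - 2 * k)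

/-- [SM P1] (about 80 lines) Uses P1b. The macro chain covers every macro cell exactly once.
Proof. If `g ∈ Ch γ`, `g.V 2 = 2k`, `x ∈ PP`, `g.mact x = c`: `c 2 = x 2 + 2k`, `c 1 = x 1 + V 1` with `V 1 ≡ -2k mod 5`, `0 ≤ x 1 ≤ 4`, so
`x 1 = (c 1 + 2k) % 5`; `c 0 = sg s * x 0 + V 0`, `V 0 ≡ 2t mod 6`, `0 ≤ x 0 ≤ 5`, so `x 0 = (sg s (c 0 - 2t)) % 6`; `c i = V i` for `i ≥ 3`.  So
`k` satisfies the condition of P1b with `(X,Y,Z) = (c 0, c 1, c 2)`, and `x`, `g` are determined by `k` and `c`.  Conversely for the `k` of P1b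
define `x` and `V` by these formulas. -/
def S_P1 : Prop :=
  ∀ (n : ℕ) (γ : Gam), Valid γ → ∀ c : Zc n, ∃! g : Pl n, g ∈ Ch (n := n) γ ∧ c ∈ g.mact '' PP n

/-- [SM P2a] (about 120 lines) Every tail of a tile of the chain fills a tunnel of a tile of the chain.
Proof. `κ.a ≠ 2`: `κ' = κ`, `g' = ⟨g.s, fun i => g.V i + (if i = 0 then sg g.s * κ.v i else κ.v i)⟩`; `v` changes `V 0` by a multiple of 6, `V 1` by a
multiple of 5, or `V i`, `i ≥ 3`.  `κ.a = 2`, `e = sg κ.s`: let `k` be the layer of `g`, `(s', t') = γ (k + e)`, `s = g.s`.  Let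
`E = sg s * 2 B + V 0` (even, as `V 0 ≡ 2t mod 6`).  Choose `B' ∈ {0,1,2}` with `2 B' ≡ sg s' (E - 2t') mod 6`
(`B' = (sg s' * (E - 2t') / 2) % 3`), `V' 0 = E - sg s' * 2 B'`, so `V' 0 ≡ 2t' mod 6`; `V' 1 = V 1 - 2e`, `V' 2 = V 2 + 2e`, `V' i = V i`.
Then `κ' = ⟨2, κ.s, B'⟩` works for all `j`: coordinate `0`: `q j 0 = 0` for `a = 2` (leaf `0`, and `0 ∉ dirs`), so
`sg s * (MM 2B) + MM V 0 = sg s' * (MM 2B') + MM V' 0`; the other coordinates: `base`, `q` do not depend on `B`, and `V + v = V'`. -/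
def S_P2a : Prop :=
  ∀ (n : ℕ) (γ : Gam) (g : Pl n) (κ : Key n), g ∈ Ch (n := n) γ →
    ∃ g' ∈ Ch (n := n) γ, ∃ κ' : Key n, κ'.a = κ.a ∧ κ'.s = κ.s ∧
      ∀ j, g.act (κ.tail j) = g'.act (κ'.tun j)

/-- [SM P2b] (about 120 lines) Every tunnel of a tile of the chain is filled by a tail of a tile of the chain.
Proof. The same computation as in P2a, backwards.  `κ'.a ≠ 2`: `κ = κ'`, `g = ⟨g'.s, fun i => g'.V i - (if i = 0 then sg g'.s * κ.v i else κ.v i)⟩`.
`κ'.a = 2`, `e = sg κ'.s`, `g'` in layer `k'`: `(s, t) = γ (k' - e)`, `E = sg s' * 2B' + V' 0`, `B = (sg s * (E - 2t) / 2) % 3`,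
`V 0 = E - sg s * 2B`, `V 1 = V' 1 + 2e`, `V 2 = V' 2 - 2e`, `V i = V' i`. -/
def S_P2b : Prop :=
  ∀ (n : ℕ) (γ : Gam) (g' : Pl n) (κ' : Key n), g' ∈ Ch (n := n) γ →
    ∃ g ∈ Ch (n := n) γ, ∃ κ : Key n, κ.a = κ'.a ∧ κ.s = κ'.s ∧
      ∀ j, g.act (κ.tail j) = g'.act (κ'.tun j)

/-- [SM P2c] (about 80 lines) A tail position determines the tile.
Proof. `κ1.a ≠ 2`: `κ1 = κ2`; coordinate `2` gives `V1 2 = V2 2`, so the layers agree, `s` agrees, and the other coordinates give `V1 = V2`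
(`MM ≠ 0`).  `κ1.a = 2`: the tails of `κ1, κ2` differ only in coordinate `0`, where they are `MM * 2 B_i`; coordinates `≠ 0` give `V1 i = V2 i`, so
the layers agree and `s1 = s2`, `V1 0 ≡ V2 0 mod 6`; coordinate `0`: `sg s * 2 B1 + V1 0 = sg s * 2 B2 + V2 0`, so `2 (B1 - B2) ≡ 0 mod 6`,
`B1 = B2`, `V1 0 = V2 0`. -/
def S_P2c : Prop :=
  ∀ (n : ℕ) (γ : Gam) (g1 g2 : Pl n) (κ1 κ2 : Key n), g1 ∈ Ch (n := n) γ → g2 ∈ Ch (n := n) γ →
    κ1.a = κ2.a → κ1.s = κ2.s → g1.act (κ1.tail 0) = g2.act (κ2.tail 0) → g1 = g2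

/-- [SM P3c] (about 30 lines) Placements and macro cells.
Proof. `g.act p i - MM (g.mact c i) = ± (p i - MM c i)`.  For `⊇` use the inverse formula. -/
def S_P3c : Prop :=
  ∀ (n : ℕ) (g : Pl n) (c p : Zc n), (InMega (g.mact c) (g.act p) ↔ InMega c p) ∧
    Function.Injective g.act ∧ Function.Surjective g.act ∧ Function.Injective g.mact

/-- [SM P3d] (about 50 lines) Uses D1, D2, K4, K6, K8b. Different tunnels are disjoint.
Proof. `κ.tun j = κ'.tun j'` gives `κ'.base = κ.base` (D1, D2), so by D5-type argument (`K8b`, `K4`) `κ = κ'`: precisely by K8b either `κ = κ'` or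
both axes are `≥ 3` and then K4 contradicts the equality of the `x`-coordinates.  `j = j'` by K6 (distance `|j - j'| = 0`). -/
def S_P3d : Prop :=
  ∀ (n : ℕ) (κ κ' : Key n) (j j' : ℕ), j ≤ κ.len → j' ≤ κ'.len → κ.tun j = κ'.tun j' →
    κ = κ' ∧ j = j'

/-- [SM P3a] (about 60 lines) Uses P1, P2b, P3c, D1, D2, D3. The chain covers every cell.
Proof. Let `InMega c p` (D1) and `g ∈ Ch γ`, `x ∈ PP`, `g.mact x = c` (P1), `p = g.act p'` (P3c), `InMega x p'`.  If `p' ∉ Tuns` then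
`p' ∈ SS` (D3).  Otherwise `p' = κ'.tun j` and by P2b `p = g'.act (κ.tail j)` with `g' ∈ Ch γ`, and `κ.tail j ∈ SS`
(`j ≤ κ'.len = κ.len`, as `len` depends only on `a, s`). -/
def S_P3a : Prop :=
  ∀ (n : ℕ) (γ : Gam), Valid γ → ∀ p : Zc n, ∃ g ∈ Ch (n := n) γ, p ∈ g.act '' SS n

/-- [SM P3b] (about 100 lines) Uses P1, P2a, P2c, P3c, P3d, D1, D2, K8a. The tiles of the chain are disjoint.
Proof. `p = g.act x = g'.act x'`, `x, x' ∈ SS = (Sol \ Tuns) ∪ Tails`.
Both solid: `x ∈ mega c`, `x' ∈ mega c'`, `c, c' ∈ PP`; `p ∈ mega (g.mact c) = mega (g'.mact c')` (P3c, D1), so `g = g'` by P1.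
`x` solid in `mega c`, `x' = κ.tail j`: `p = g''.act (κ''.tun j)`, `g'' ∈ Ch γ` (P2a; `j ≤ κ''.len`), `κ''.tun j ∈ mega κ''.base`, `κ''.base ∈ PP`
(K8a), so `g'' = g` by P1 and `x = κ''.tun j` by injectivity, but `x ∉ Tuns`: contradiction.
Both tails: `p = g1.act (κ1.tun j) = g2.act (κ2.tun j')` as before, `g1 = g2` (P1), `κ1 = κ2`, `j = j'` (P3d).  P2a gives the equation
`g.act (κ.tail i) = g1.act (κ1.tun i)` for ALL `i`, so `g.act (κ.tail 0) = g'.act (κ'.tail 0)`, and `κ.a = κ1.a = κ'.a` etc.;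
P2c gives `g = g'`. -/
def S_P3b : Prop :=
  ∀ (n : ℕ) (γ : Gam), Valid γ → ∀ (g g' : Pl n) (p : Zc n), g ∈ Ch (n := n) γ →
    g' ∈ Ch (n := n) γ → p ∈ g.act '' SS n → p ∈ g'.act '' SS n → g = g'

/-- [SM P4] (about 60 lines) Uses P3a, P3b, R1, R6, R11a, R11b, R12. Chains of valid sequences are tilings.
Proof. Congruent copies by definition.  Covering: `x ∈ cube p` (R1), `p ∈ g.act '' SS`, `x ∈ real (g.act '' SS) = h '' TT` (R11a, R11b).  Disjoint:
for `G = h '' TT ≠ G' = h' '' TT` we have `g ≠ g'` (otherwise `h = h'` pointwise, R12 (2)), so the cell sets are disjoint (P3b) and R6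
applies. -/
def S_P4 : Prop :=
  ∀ (n : ℕ) (γ : Gam), Valid γ → STil (TT n) (CC n γ)

/-- [SM F10] (about 70 lines) Uses F7, F8, F9, P3a, R1, R2, R4, R11a, R11b. Every tiling containing `TT` is a chain.
Proof. `γ` from F7, `InW` for all of `Ch γ` (F8), valid (F9).  `CC n γ ⊆ W` by definition of `InW`.  Conversely let `G ∈ W`; `G` is a copy of
`TT n` which has interior points; `U = interior G` is open and nonempty (`G = h '' TT n`, `TT n` contains an open cube), take `x ∈ U`,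
`x ∈ cube p` (R1), so `U` meets `ocube p` (R4), and `p ∈ g.act '' SS` with `g ∈ Ch γ` (P3a); `ocube p ⊆ interior (h '' TT)` for the isometry `h` of
`g` (R11a, R11b), `h '' TT ∈ W`, and the interiors of `G` and `h '' TT` meet, so `G = h '' TT ∈ CC n γ`. -/
def S_F10 : Prop :=
  ∀ (n : ℕ) (W : Set (Set (Es n))), STil (TT n) W → TT n ∈ W → ∃ γ : Gam, Valid γ ∧ W = CC n γ

/-- [SM H1a] (about 40 lines) The sequence `zc ∘ γ`.
Proof. `zc, oc ∈ {1,3,5}` and `oc c ≠ zc c` for all `c : Bool × Fin 3` (`decide`).  `Valid γ k`: `oc (γ k)`, `zc (γ (k-1))`, `zc (γ (k-4))` are the three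
elements of `{1,3,5}`, `zc (γ k) ≠ oc (γ k)`. -/
def S_H1a : Prop :=
  ∀ (γ : Gam), Valid γ → ∀ k : ℤ, (zc (γ k) = 1 ∨ zc (γ k) = 3 ∨ zc (γ k) = 5) ∧
    zc (γ (k - 1)) ≠ zc (γ (k - 4)) ∧ (zc (γ k) = zc (γ (k - 1)) ∨ zc (γ k) = zc (γ (k - 4)))

/-- [SM H1b] (about 40 lines) A valid sequence is determined by `zc ∘ γ`.
Proof. `oc (γ k)` is the third element of `{1,3,5}` besides `zc (γ (k-1))`, `zc (γ (k-4))`, and `(zc c, oc c)` determines `c` (`decide`). -/
def S_H1b : Prop :=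
  ∀ (γ γ' : Gam), Valid γ → Valid γ' → (∀ k, zc (γ k) = zc (γ' k)) → γ = γ'

/-- [SM H1c] (about 60 lines) Determination of a sequence by its repetitions and four values.
Proof. Hypotheses for both: values in `{1,3,5}`, `z (k-1) ≠ z (k-4)`, `z k = z (k-1) ∨ z k = z (k-4)`; `r k := (z k = z (k-1))` agree.
Claim: if `z, z'` agree on `[k-4, k-1]` then at `k`; if they agree on `[k-3, k]` then at `k-4`.  Forward: if `r k` then `z k = z (k-1)`, else
`z k = z (k-4)`.  Backward: if `¬ r k`: `z (k-4) = z k`.  If `r k` and `r (k-3)`: `z (k-4) = z (k-3)`.  If `r k` and `¬ r (k-3)`: `z (k-4)` is different from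
`z (k-3)` and from `z (k-1)`, and `z (k-1) = z k ≠ z (k-3)` (condition at `k+1`), so it is the third element of `{1,3,5}`; the same for `z'`.
Then induction in both directions from the window `[-3, 0]`. -/
def S_H1c : Prop :=
  ∀ (z z' : ℤ → ℤ),
    (∀ k, (z k = 1 ∨ z k = 3 ∨ z k = 5) ∧ z (k - 1) ≠ z (k - 4) ∧
      (z k = z (k - 1) ∨ z k = z (k - 4))) →
    (∀ k, (z' k = 1 ∨ z' k = 3 ∨ z' k = 5) ∧ z' (k - 1) ≠ z' (k - 4) ∧
      (z' k = z' (k - 1) ∨ z' k = z' (k - 4))) →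
    (∀ k, (z k = z (k - 1) ↔ z' k = z' (k - 1))) →
    z 0 = z' 0 → z (-1) = z' (-1) → z (-2) = z' (-2) → z (-3) = z' (-3) → ∀ k, z k = z' k

/-- [SM H1d] (about 60 lines) Up-closed sets modulo 3 are countably many.
Proof. For `i < 3` the set `R ∩ (3ℤ + i)` is `∅`, everything, or `{k ≡ i, k ≥ m}` for some `m`.  So the family is contained in the range
of a function on the countable type `Fin 3 → (Bool × ℤ)`-like data (e.g. `WithTop (WithBot ℤ)`, or `Option (Option ℤ)`). -/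
def S_H1d : Prop :=
  {R : Set ℤ | ∀ k, k ∈ R → k + 3 ∈ R}.Countable

/-- [SM H1] (about 50 lines) Uses H1a, H1b, H1c, H1d. Countably many valid sequences.
Proof. For valid `γ` put `z = zc ∘ γ`, `R = {k | z k = z (k-1)}`.  `k ∈ R → k + 3 ∈ R`: `z (k+3) = z (k+2)` or `z (k+3) = z (k-1)`; in the second case
`z (k-1) = z k ≠ z (k+3)` (`H1a` at `k+4`: `z (k+3) ≠ z k`), contradiction, so `z (k+3) = z (k+2)`.  The map
`γ ↦ (R, z 0, z (-1), z (-2), z (-3))` is injective on valid sequences (H1c, H1b) with values in a countable set (H1d). -/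
def S_H1 : Prop :=
  {γ : Gam | Valid γ}.Countable

/-- [SM H2a] (about 80 lines) The family is valid, and `zc (fam m k) = zseq m k`.
Proof. `zseq m k ∈ {1,3,5}`, `zseq m (k-1) ≠ zseq m (k-4)`, `zseq m k ∈ {zseq m (k-1), zseq m (k-4)}`: unfold and split (`omega` can do the
cases: the regions `k < 0`, `0 ≤ k < 9m`, `9m ≤ k` and residues).  `colOf z o` has `zc = z`, `oc = o` for different `z, o ∈ {1,3,5}` (`decide` on 6 cases);
with `o = 9 - zseq (k-1) - zseq (k-4)`, the third element, different from `zseq m k`. -/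
def S_H2a : Prop :=
  ∀ (m : ℕ), Valid (fam m) ∧ ∀ k, zc (fam m k) = zseq m k

/-- [SM H2b] (about 80 lines) The first repetitions.
Proof. `omega` after unfolding, splitting into regions.  (`abac` has no repetition; `cbaacbbac` starts at `k = 0` after `c`; inside the middle
part no three equal consecutive symbols; at `9m, 9m+1` the symbols are `c c`, preceded by `c`.) -/
def S_H2b : Prop :=
  ∀ (m : ℕ), zseq m 0 = zseq m (-1) ∧ (∀ k < 0, zseq m k ≠ zseq m (k - 1)) ∧
    (zseq m (9 * m + 1) = zseq m (9 * m) ∧ zseq m (9 * m) = zseq m (9 * m - 1)) ∧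
    (∀ k, k < 9 * m + 1 → ¬ (zseq m k = zseq m (k - 1) ∧ zseq m (k - 1) = zseq m (k - 2)))

/-- [SM H2c] (about 40 lines) Uses H2a, H2b. Inequivalence.
Proof. `c ↦ (sg s * c + w) % 6` is injective on `{1,3,5}`, so `zseq m' (k+j) = zseq m' (k+j-1) ↔ zseq m k = zseq m (k-1)`.  By H2b the first repetition
of both sequences is at `0`, so `j = 0`; the first double repetitions are at `9m+1` and `9m'+1`, so `m = m'`. -/
def S_H2c : Prop :=
  ∀ (m m' : ℕ) (j w : ℤ) (s : Bool),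
    (∀ k, zseq m' (k + j) = (sg s * zseq m k + w) % 6) → m = m'

/-- [SM G3] (about 110 lines) Uses F9a, P4, R11a, R12. Congruent chains have equivalent sequences.
Proof. `F9a` applies (W = CC n γ is a tiling, P4): an isometry mapping `TT` to itself is the identity.  Let `h k` be an isometry for
`anc n k (γ k) ∈ Ch γ` (R11a).  `φ '' (h k '' TT) ∈ CC n γ'`, so it is `h' k '' TT` with `IsPl (g' k) (h' k)`, `g' k ∈ Ch γ'`, and by the triviality of
the stabiliser `φ (h k x) = h' k x` for all `x, k`.  So `h' k = h' 0 ∘ (h 0)⁻¹ ∘ h k`.  Compute coordinates (`s_k = sg (γ k).1`,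
`t_k = (γ k).2`, `S' k = sg (g' k).s`): `h 0` is `x ↦ (s_0 x + 2 M t_0, ...)`; evaluating in the coordinates `0` and `2` at the origin and at
`e_0`: `S' k = S' 0 * s_0 * s_k`, `(g' k).V 0 = S' 0 * s_0 * (2 t_k - 2 t_0) + (g' 0).V 0`, `(g' k).V 2 = 2k + (g' 0).V 2`.  Let `(g' 0).V 2 = 2 j`.
Since `g' k ∈ Ch γ'` with layer `k + j`: `(g' k).s = (γ' (k+j)).1`, `(g' k).V 0 ≡ 2 t' (k+j) mod 6`.  So
`zc (γ' (k+j)) ≡ S' k + (g' k).V 0 ≡ S' 0 s_0 (s_k + 2 t_k) + w mod 6` with `w = (g' 0).V 0 - S' 0 s_0 2 t_0`. -/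
def S_G3 : Prop :=
  ∀ (n : ℕ) (γ γ' : Gam) (φ : Es n ≃ᵢ Es n), Valid γ → Valid γ' →
    (fun X => φ '' X) '' CC n γ = CC n γ' →
    ∃ (j w : ℤ) (s : Bool), ∀ k, zc (γ' (k + j)) = (sg s * zc (γ k) + w) % 6

/-- [SM G1] (about 80 lines) Uses D0, A5, R4, R7. Set tilings are countable and infinite.
Proof. `TT n = real (SS n)`, `SS n` finite (D0), nonempty.  Countable: `W = ⋃ N, {G ∈ W | G meets closedBall 0 N}` (each `G` is nonempty), finite sets
by A5.  Infinite: if `W` were finite, `univ = ⋃₀ W` would be a finite union of compact sets (R7, images), but `Es n` is not compact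
(`NoncompactSpace`). -/
def S_G1 : Prop :=
  ∀ (n : ℕ) (W : Set (Set (Es n))), STil (TT n) W → W.Countable ∧ W.Infinite

/-- [SM G2] (about 60 lines) Uses G1. Families and sets.
Proof. (1) `W` is countable and infinite, so there is a bijection `e : ℕ ≃ W` (`Denumerable`, `Set.Countable`, `Infinite`); `F i = e i`.
(2) direct; for `G = F i ≠ G' = F j` we have `i ≠ j`. -/
def S_G2 : Prop :=
  ∀ (n : ℕ), (∀ W : Set (Set (Es n)), STil (TT n) W →
      ∃ F : ℕ → Set (Es n), IsTiling (TT n) F ∧ Set.range F = W) ∧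
    (∀ F : ℕ → Set (Es n), IsTiling (TT n) F → STil (TT n) (Set.range F))

/-- [SM G4] (about 80 lines) Uses F2, F10, G2, H1. Countably many congruence classes.
Proof. Let `F` be a tiling, `W = range F` (G2 (2)), `F 0 = φ '' TT`; `W' = (φ.symm '' ·) '' W` is a tiling (F2) containing `TT`, so
`W' = CC n γ` with `γ` valid (F10).  So for every class (choose a representative `F`) there is a valid `γ` such that `range F` is mapped to `CC n γ` by
an isometry.  Two classes with the same `γ` are equal (compose).  So there is an injection from the quotient to the countable set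
`{γ | Valid γ}` (H1). -/
def S_G4 : Prop :=
  ∀ (n : ℕ), Countable (Quotient (tilingSetoid (TT n)))

/-- [SM G5] (about 60 lines) Uses P4, G2, G3, H2a, H2c. Infinitely many congruence classes.
Proof. `m ↦` class of a family `F_m` with `range F_m = CC n (fam m)` (P4, H2a, G2 (1)) is injective: if the classes for `m, m'` agree, there is `φ`
with `(φ '' ·) '' CC n (fam m) = CC n (fam m')`, G3 and H2a give `zseq m' (k+j) = (sg s * zseq m k + w) % 6`, so `m = m'` (H2c). -/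
def S_G5 : Prop :=
  ∀ (n : ℕ), Infinite (Quotient (tilingSetoid (TT n)))

/-- [SM B1] (about 130 lines) Convex attachment.
Proof. Choose `o ∈ interior W` and translate it to `0` (the statement is translation invariant).  `W ⊆ B` are compact convex neighbourhoods of `0`, so
`gaugeRescaleHomeomorph B W` is a homeomorphism `ρ` of `E` with `ρ x = (gauge B x / gauge W x) • x`, mapping `B` onto `W`
(`B, W` closed: `gauge s x ≤ 1 ↔ x ∈ s`), and `ρ x = x` whenever `gauge B x = gauge W x`, in particular for `x ∈ W ∩ frontier B` (`1 = gauge B x ≤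
gauge W x ≤ 1`, using `W ⊆ B` so `gauge B ≤ gauge W`).  Let `Y = X \ interior B`, closed.  `X ∪ B = Y ∪ B`, `X = Y ∪ W` (as `X ∩ B = W`), and
`Y ∩ B ⊆ W ∩ frontier B`, `Y ∩ W ⊆ W ∩ frontier B`.  So the maps `id` on `Y`, `ρ` on `B` glue to a continuous map `X ∪ B → X`, and
`id` on `Y`, `ρ⁻¹` on `W` glue to a continuous inverse (both pieces closed). -/
def S_B1 : Prop :=
  ∀ (d : ℕ) (X B W : Set (EuclideanSpace ℝ (Fin d))), IsClosed X → IsCompact B → IsCompact W →
    Convex ℝ B → Convex ℝ W → W ⊆ B → (interior W).Nonempty → X ∩ B = W →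
    Nonempty (↥(X ∪ B) ≃ₜ ↥X)

/-- [SM B2] (about 40 lines) Convex bodies are balls.
Proof. Translate an interior point to `0` and use `gaugeRescaleHomeomorph B (closedBall 0 1)` (image of the closed convex body is the
closed ball), restricted to the sets. -/
def S_B2 : Prop :=
  ∀ (d : ℕ) (B : Set (EuclideanSpace ℝ (Fin d))), IsCompact B → Convex ℝ B →
    (interior B).Nonempty → Nonempty (↥B ≃ₜ ↥(Metric.closedBall (0 : EuclideanSpace ℝ (Fin d)) 1))

/-- [SM B3a] (about 60 lines) Boxes are convex bodies.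
Proof. Convex: intersection of convex conditions on coordinates; compact: closed and bounded; interior: the point with coordinates
`x0, y0, z0, 0, ..` has the open cube `∀ i, |x i - p i| < 1/2` inside. -/
def S_B3a : Prop :=
  ∀ (n : ℕ) (x0 x1 y0 y1 z0 z1 : ℤ), x0 ≤ x1 → y0 ≤ y1 → z0 ≤ z1 →
    IsCompact (bx n x0 x1 y0 y1 z0 z1) ∧ Convex ℝ (bx n x0 x1 y0 y1 z0 z1) ∧
    (interior (bx n x0 x1 y0 y1 z0 z1)).Nonempty

/-- [SM B3b] (about 100 lines) The macro polycube is a union of nine boxes.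
Proof. `⊆`: `x ∈ cube p`, `p ∈ PP`: the disjuncts of `InP` (in the third one the three arms) and interval arithmetic.  `⊇`: for `x` in a box choose
`p i = 0` for `i ≥ 3` and for `i = 0, 1, 2` an integer in the range with `|x i - p i| ≤ 1/2` (for the one-cell directions the cell itself, in the long
directions `max lo (min hi (round (x i)))`). -/
def S_B3b : Prop :=
  ∀ (n : ℕ), real (PP n) = bx n 0 5 0 0 0 1 ∪ bx n 0 0 1 4 0 1 ∪ bx n 2 2 1 4 0 1 ∪
    bx n 4 4 1 4 0 1 ∪ bx n 1 1 0 0 2 9 ∪ bx n 3 3 0 0 2 8 ∪ bx n 5 5 0 0 2 8 ∪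
    bx n 1 1 1 1 3 3 ∪ bx n 5 5 3 3 1 1

/-- [SM B3] (about 120 lines) Uses B1, B2, B3a, B3b. The macro polycube is a ball.
Proof. Start with the box `R = bx 0 5 0 0 0 1` (B2, B3a) and attach the eight other boxes in the order of B3b with B1; for the new box `Q`
take `B = Q ∪ W` (again a box, and `X ∪ B = X ∪ Q`) and `W` as follows:  `Q = bx c c 1 4 0 1` (`c = 0,2,4`): `B = bx c c 0 4 0 1`,
`W = bx c c 0 0 0 1`;  `Q = bx c c 0 0 2 m` (`c = 1,3,5`, `m = 9,8,8`): `B = bx c c 0 0 0 m`, `W = bx c c 0 0 0 1`;  `Q = bx 1 1 1 1 3 3`: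
`B = bx 1 1 0 1 3 3`, `W = bx 1 1 0 0 3 3`;  `Q = bx 5 5 3 3 1 1`: `B = bx 4 5 3 3 1 1`, `W = bx 4 4 3 3 1 1`.  Each time `X ∩ B = W` for
the union `X` of the previous boxes (membership in `bx` is a list of inequalities: `ext`, case distinction, `linarith`). -/
def S_B3 : Prop :=
  ∀ (n : ℕ), Nonempty (↥(real (PP n)) ≃ₜ ↥(Metric.closedBall (0 : Es n) 1))

/-- [SM B4] (about 80 lines) Scaling.
Proof. `x ∈ real (Sol n) ↔ (1/M) • x ∈ real (PP n)`, `M = MM n = 2 KK + 1`.  `→`: `|x i - p i| ≤ 1/2`, `|p i - M c i| ≤ KK` give `|x i - M c i| ≤ M/2`.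
`←`: `|x i - M c i| ≤ KK + 1/2`; put `p i = M c i + max (-KK) (min KK (round (x i - M c i)))`, then `|x i - p i| ≤ 1/2`.  So the homeomorphism
`x ↦ (1/M) • x` (`Homeomorph.smulOfNeZero`) maps `real (Sol n)` onto `real (PP n)`. -/
def S_B4 : Prop :=
  ∀ (n : ℕ), Nonempty (↥(real (Sol n)) ≃ₜ ↥(real (PP n)))

/-- [SM B5a] (about 70 lines) The one-dimensional functions.
Proof. For `0 ≤ a ≤ 1/2`: `1 ≤ t1 a ≤ 2`, `2 ≤ t2 a ≤ 5/2`, `t2 a - t1 a ≥ 1/2` (if `a ≤ 2/5` then `t2 = 5/2`, else `t2 = 1/a = 2 * (1/(2a)) ≥ 2 t1`), so all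
denominators are positive.  `Ff a` is increasing and piecewise linear with `1/2 ↦ 1/2`, `t1 a ↦ 1`, `t2 a ↦ t2 a`, `Gg a` is the inverse
(`Gg`: `1 ↦ t1 a`).  For `a = 1/2`: `t1 = 1`, `t2 = 2`, both are the identity. -/
def S_B5a : Prop :=
  ∀ a : ℝ, 0 ≤ a → a ≤ 1 / 2 →
    1 ≤ t1 a ∧ t1 a ≤ 2 ∧ 2 ≤ t2 a ∧ t2 a ≤ 5 / 2 ∧ 1 / 2 ≤ t2 a - t1 a ∧
    (∀ t, 1 / 2 ≤ t → t ≤ t2 a → 1 / 2 ≤ Ff a t ∧ Ff a t ≤ t2 a ∧ Gg a (Ff a t) = t ∧
      1 / 2 ≤ Gg a t ∧ Gg a t ≤ t2 a ∧ Ff a (Gg a t) = t ∧ (Ff a t ≤ 1 ↔ t ≤ t1 a)) ∧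
    Ff a (1 / 2) = 1 / 2 ∧ Ff a (t2 a) = t2 a ∧ Gg a (1 / 2) = 1 / 2 ∧ Gg a (t2 a) = t2 a ∧
    (a = 1 / 2 → ∀ t, 1 / 2 ≤ t → t ≤ t2 a → Ff a t = t ∧ Gg a t = t)

/-- [SM B5b] (about 80 lines) Uses B5a. Continuity of the step map and its candidate inverse.
Proof. `t1, t2` are continuous (denominators `≥ 1/2`, `≥ 2/5`).  `slp` is continuous (`max .. (1/2) ≥ 1/2`; `rho` is the norm of a continuous function
into a finite product) with values in `[0, 1/2]`.  `(a, t) ↦ Ff a t` is continuous on `a ∈ [0,1/2]`, `t` real: the two branches are continuous there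
(denominators `t1 a - 1/2 ≥ 1/2`, `t2 a - t1 a ≥ 1/2`) and agree for `t = t1 a` (value `1`).  To avoid subtypes: on all of `ℝ × ℝ` replace the denominators by
`max (1/2) _`, which gives continuous functions agreeing with the given ones at `a = slp .. ∈ [0,1/2]`.  The same for `Gg`
(branches agree at `t = 1`). -/
def S_B5b : Prop :=
  ∀ (n : ℕ) (q : Zc n) (b : Dx n) (s : Bool), Continuous (Phi q b s) ∧ Continuous (Psi q b s)

/-- [SM B5c] (about 100 lines) Uses B5a. The two maps are inverse to each other.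
Proof. Let `τ = hgt x`, `a = slp x`, `c = clp a τ`, `Δ = Ff a c - c`, `λ = 1 + Δ / max τ (1/2)`; `Phi x - apx = λ (x - apx)`.
If `τ ≤ 1/2`: `c = 1/2`, `Δ = 0`, `Phi x = x`, and also `Psi x = x`.  Let `τ > 1/2`: `λ = (τ + Δ)/τ`; `hgt (apx + λ (x - apx)) = λ τ = τ + Δ`
(`hgt` is the multiple of the height over the apex), `rho (Phi x) = |λ| rho x`.  `τ + Δ ≥ 1/2`: if `τ ≤ t2 a` then `c = τ`, `τ + Δ = Ff a τ ∈ [1/2, t2 a]`;
if `τ > t2 a` then `c = t2 a`, `Δ = 0`.  So `λ > 0` and `slp (Phi x) = slp x = a` (the quotient `rho / hgt` is unchanged), and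
`Psi (Phi x) - apx = (1 + Δ' / (τ + Δ)) λ (x - apx)` with `Δ' = Gg a c' - c'`, `c' = clp a (τ + Δ)`.  In the first case `c' = Ff a τ`, `Gg a c' = τ`,
`Δ' = - Δ` and the product is `1`.  In the second case all displacements are `0`.  `Phi (Psi x) = x` in the same way. -/
def S_B5c : Prop :=
  ∀ (n : ℕ) (q : Zc n) (b : Dx n) (s : Bool) (x : Es n),
    Psi q b s (Phi q b s x) = x ∧ Phi q b s (Psi q b s x) = x

/-- [SM B5d] (about 80 lines) Uses B5a. Behaviour of the step map: identity outside the support, and inside the support it moves the level `t1` to `1`.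
Proof. Notation as in B5c.  (1) If `hgt x ≤ 1/2`: `Δ = 0`.  If `hgt x > 1/2` and `rho x ≥ hgt x / 2` then `slp = 1/2` and `Ff` is the identity on
`[1/2, t2]`.  If `hgt x ≥ 5/2` then `τ ≥ 5/2 ≥ t2 a`, `c = t2 a`, `Δ = 0`.  If `rho x ≥ 1`, `hgt x > 1/2`, `rho x < hgt x / 2`: `a = rho / τ`, so `τ = rho / a ≥ 1/a`,
`a < 1/2`; also `τ < 5/2` may be assumed, so `a > 2/5` and `t2 a = 1/a ≤ τ`: `c = t2 a`, `Δ = 0`.
(2) Inside the support: `a = rho/τ < 1/2`, `τ < t2 a` (`τ < 5/2`, `a τ = rho < 1`), `c = τ`, `hgt (Phi x) = Ff a τ`, `slp (Phi x) = a`, `rho (Phi x) = a Ff a τ`;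
so `hgt (Phi x) ∈ (1/2, t2 a)` (strictly monotone), `rho (Phi x) < hgt / 2`, `rho (Phi x) < a t2 a ≤ 1`.  `Ff a τ ≤ 1 ↔ τ ≤ t1 a`, and
`τ ≤ t1 a ↔ τ ≤ 2 ∧ 2 a τ ≤ 1 ↔ τ ≤ 2 ∧ rho x ≤ 1/2`. -/
def S_B5d : Prop :=
  ∀ (n : ℕ) (q : Zc n) (b : Dx n) (s : Bool) (x : Es n),
    (¬ (1 / 2 < hgt q b s x ∧ hgt q b s x < 5 / 2 ∧ rho q b x < hgt q b s x / 2 ∧ rho q b x < 1) →
      Phi q b s x = x) ∧
    ((1 / 2 < hgt q b s x ∧ hgt q b s x < 5 / 2 ∧ rho q b x < hgt q b s x / 2 ∧ rho q b x < 1) →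
      (1 / 2 < hgt q b s (Phi q b s x) ∧ hgt q b s (Phi q b s x) < 5 / 2 ∧
        rho q b (Phi q b s x) < hgt q b s (Phi q b s x) / 2 ∧ rho q b (Phi q b s x) < 1) ∧
      (hgt q b s (Phi q b s x) ≤ 1 ↔ hgt q b s x ≤ 2 ∧ rho q b x ≤ 1 / 2))

/-- [SM B5] (about 100 lines) Uses B5b, B5c, B5d. Step lemma.
Proof. `Φ = Phi q b s` with inverse `Psi` (B5b, B5c).  Let the support be the condition `1/2 < hgt < 5/2`, `rho < hgt/2`, `rho < 1`.
Cells: `x ∈ cube p` means `|x i - p i| ≤ 1/2`; for `x ∈ cube q`: `1 ≤ hgt ≤ 2`, `rho ≤ 1/2`, and conversely.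
(i) `x` in the support: `x ∈ real A ↔ hgt x ≤ 1`.  `←`: `1/2 < hgt ≤ 1`, `rho < 1/2`, so `x` is in the cube of `q - sg s e_b ∈ A` (its heights are `[0,1]`).
`→`: suppose `hgt x > 1`, `x ∈ cube p`, `p ∈ A`.  For `c ≠ b`: `|x c - q c| ≤ rho < 1`, so `|p c - q c| < 3/2`, i.e. `≤ 1`; in direction `b`:
`t = sg s (x b - q b) = hgt - 3/2 ∈ (-1/2, 1)`, so `sg s (p b - q b) ∈ (-1, 3/2)`, i.e. `0` or `1`.  So `Nb q p`, `0 ≤ sg s (p b - q b)` and `p ∉ A`.
(ii) `x` in the support: `x ∈ real (A ∪ {q}) ↔ hgt x ≤ 2 ∧ rho x ≤ 1/2`.  `→`: by (i) or `x ∈ cube q` (`hgt ≤ 1` gives `rho < 1/2`).  `←`: `hgt ≤ 1`: (i);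
`1 < hgt ≤ 2`, `rho ≤ 1/2`: `x ∈ cube q`.
(iii) `x` outside the support: `x ∈ real (A ∪ {q}) ↔ x ∈ real A`: let `x ∈ cube q` outside: `rho ≤ 1/2`, `1 ≤ hgt ≤ 2`, so `rho ≥ hgt/2` forces `rho = 1/2`,
`hgt = 1`, and `x` is in the cube of `q - sg s e_b ∈ A`.
With B5d: `x ∈ real (A ∪ {q}) ↔ Φ x ∈ real A` for all `x` (in the support: `Φ x` is in the support and (i), (ii); outside: `Φ x = x`).  `Φ` is bijective. -/
def S_B5 : Prop :=
  ∀ (n : ℕ) (A : Set (Zc n)) (q : Zc n) (b : Dx n) (s : Bool), q ∉ A →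
    (fun i => q i - (if i = b then sg s else 0)) ∈ A →
    (∀ p, Nb q p → 0 ≤ sg s * (p b - q b) → p ∉ A) →
    ∃ Φ : Es n ≃ₜ Es n, Φ '' real (A ∪ {q}) = real A

/-- [SM B6] (about 50 lines) Uses B5, R8. Dual step lemma (digging).
Proof. B5 with `A = Sᶜ` (`A ∪ {q} = (S \ {q})ᶜ`).  By R8 `real S = closure (real Sᶜ)ᶜ` and `real (S \ {q}) = closure (real (S \ {q})ᶜ)ᶜ`; `Φ` commutes with
closure and complement (`Homeomorph.image_closure`, `Set.image_compl_eq`). -/
def S_B6 : Prop :=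
  ∀ (n : ℕ) (S : Set (Zc n)) (q : Zc n) (b : Dx n) (s : Bool), q ∈ S →
    (fun i => q i - (if i = b then sg s else 0)) ∉ S →
    (∀ p, Nb q p → 0 ≤ sg s * (p b - q b) → p ∈ S) →
    ∃ Φ : Es n ≃ₜ Es n, Φ '' real (S \ {q}) = real S

/-- [SM B7] (about 130 lines) Uses B6, K2, K3, K5, K6, K7, D2. Digging one tunnel.
Proof. Remove the cells from the entrance to the leaf: for `i ≤ len + 1` let `S_i = S \ {κ.tun j | i ≤ j ≤ len}`; `S_{len+1} = S`, `S_0` is the goal.
Step from `S_{i+1}` to `S_i = S_{i+1} \ {tun i}` with B6, `q = κ.tun i`, `s = κ.s`, and `b = a` if `i = len`, `b = dirs[i]` if `i < len`.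
`q ∈ S_{i+1}`: hypothesis (1) and injectivity (K6).  Previous cell: `i = len`: `q - sg s e_a ∉ S` by hypothesis (2); `i < len`:
`tun (i+1) = q - sg s e_b` (K7) is removed.  Neighbours `p` of `q` with `0 ≤ sg s (p b - q b)`: `p` is in `mega base`: all coordinates of `q i` are
within `KK - 1` except the coordinate `a` for `i = len`, which is `- sg s KK`, and there `b = a` (K3); so `p ∈ S` by hypothesis (3).  `p` is
not one of the removed `tun j`, `j > i`: `sg s (q_j b) < sg s (q_i b)`: `sg s (q_i b - q_{i+1} b) = 1` (K7) and K5 for `i+1 ≤ j`; so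
`sg s (p b - q b) < 0` for `p = tun j`, contradiction.  (For `i = len` nothing has been removed.)  Compose the homeomorphisms. -/
def S_B7 : Prop :=
  ∀ (n : ℕ) (S : Set (Zc n)) (κ : Key n), (∀ j ≤ κ.len, κ.tun j ∈ S) →
    (fun c => κ.tun κ.len c - (if c = κ.a then sg κ.s else 0)) ∉ S →
    (∀ j ≤ κ.len, ∀ p, Nb (κ.tun j) p → InMega κ.base p → p ∈ S) →
    ∃ Φ : Es n ≃ₜ Es n, Φ '' real (S \ {p | ∃ j ≤ κ.len, p = κ.tun j}) = real S

/-- [SM B8] (about 130 lines) Uses B5, K2, K3, K5, K6, K7, D2. Attaching one tail.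
Proof. The mirror image of B7: add the cells `κ.tail len, ..., κ.tail 0` in this order with B5 (`A_i = A ∪ {κ.tail j | i ≤ j ≤ len}`, step from `A_{i+1}` to
`A_i = A_{i+1} ∪ {tail i}`, `q = κ.tail i`, `b` as in B7).  `q ∉ A_{i+1}` (hypothesis (1), injectivity K6); the previous cell is in `A_{i+1}`
(hypothesis (2), or `tail (i+1)`); a neighbour `p` of `q` with `0 ≤ sg s (p b - q b)` is in `mega (base + v)` (K3), so not in `A`
by (3), and it is not `tail j`, `j > i` (K5, K7). -/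
def S_B8 : Prop :=
  ∀ (n : ℕ) (A : Set (Zc n)) (κ : Key n), (∀ j ≤ κ.len, κ.tail j ∉ A) →
    (fun c => κ.tail κ.len c - (if c = κ.a then sg κ.s else 0)) ∈ A →
    (∀ j ≤ κ.len, ∀ p, Nb (κ.tail j) p → InMega (fun c => κ.base c + κ.v c) p → p ∉ A) →
    ∃ Φ : Es n ≃ₜ Es n, Φ '' real (A ∪ {p | ∃ j ≤ κ.len, p = κ.tail j}) = real A

/-- [SM B9] (about 100 lines) Uses B7, D0, D1, D2, D5, K3, K8a, P3d. Digging all tunnels.
Proof. `Key n` is finite (D0).  By induction on a finite set `F` of keys: there is a homeomorphism `Φ` of the space mapping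
`real (Sol \ {κ.tun j | κ ∈ F, j ≤ len})` onto `real Sol`.  Step: add `κ ∉ F`, apply B7 with `S = Sol \ (tunnels of F)`.  (1) `κ.tun j ∈ Sol` (D2, K8a) and it is
not in a tunnel of `F` (P3d).  (2) `κ.tun len - sg s e_a`: the coordinate `a` is `MM base a - sg s KK - sg s = MM (base a - sg s) + sg s KK`, so it is in the macro
cell `base - sg s e_a ∉ PP` (K3, K8a), hence not in `Sol` (D1).  (3) `p ∈ mega base` is in `Sol` (K8a); if `p` is in a tunnel then by D5
(`Nb`) it is `κ.tun j'`, not in a tunnel of `F` (P3d). -/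
def S_B9 : Prop :=
  ∀ (n : ℕ), ∃ Φ : Es n ≃ₜ Es n, Φ '' real (Sol n \ Tuns n) = real (Sol n)

/-- [SM B10] (about 100 lines) Uses B8, D0, D1, D2, K8a, K8b, K9. Attaching all tails.
Proof. Induction on a finite set `F` of keys for `A_F = (Sol \ Tuns) ∪ {κ.tail j | κ ∈ F, j ≤ len}`; step with B8, `A = A_F`, `κ ∉ F`.  (1) `κ.tail j` is in
`mega (base + v)`, `base + v ∉ PP` (D2, K8a), so it is not in `Sol` (D1), and it is not in another tail (K8b, D1, D2: different macro cells).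
(2) K9.  (3) `p ∈ mega (base + v)`: not in `Sol`, not in another tail, by the same argument. -/
def S_B10 : Prop :=
  ∀ (n : ℕ), ∃ Φ : Es n ≃ₜ Es n, Φ '' real (SS n) = real (Sol n \ Tuns n)

/-- [SM Z1] (about 20 lines) Uses B3, B4, B9, B10. The tile is a ball.
Proof. Compose: `real (SS n) ≃ real (Sol n \ Tuns n) ≃ real (Sol n) ≃ real (PP n) ≃ ball` (`Homeomorph.image` for the restrictions). -/
def S_Z1 : Prop :=
  ∀ (n : ℕ), Nonempty (↥(TT n) ≃ₜ ↥(Metric.closedBall (0 : Es n) 1))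

/-- [SM Z2] (about 10 lines) Uses R5, R7, D0. The tile is a tile. -/
def S_Z2 : Prop :=
  ∀ (n : ℕ), IsTile (TT n)

/-- [SM Z3] (about 20 lines) Uses Z1, Z2, G4, G5. Final theorem. -/
def S_Z3 : Prop :=
  ∀ d : ℕ, 3 ≤ d → ∃ T : Set (EuclideanSpace ℝ (Fin d)), IsTile T ∧
    Nonempty (↥T ≃ₜ ↥(Metric.closedBall (0 : EuclideanSpace ℝ (Fin d)) 1)) ∧
    IsMorphic T Cardinal.aleph0

end Pool.Agent.SM
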